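import Pool.Agent.Helper43.FQ.Co
import Pool.Agent.Helper84.GN.I4
import Pool.Agent.Helper90.RK.FB
import Pool.Agent.Helper96.RK.Ty5

/-!
# Project FQ (MP_0f6f3f_an), layer TIGHT: the multipliers over an unsorted stratum, `HasCoc`

The proofs are those of `Helper84/GN/I2.lean`, `I3.lean`, `I4.lean`.
-/

set_option autoImplicit false

open Filter Topology Matrix

namespace Pool.Agent.Helper43.FQ

open Pool.Agent.Helper84.NI Pool.Agent.Helper90.RK Pool.Agent.Helper84.GN Pool.Agent.Helper96.RK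

variable {G : Type} [Group G] {N : ℕ} {P : PH G N} {S : Su P} (T : StU S)

/-- The frame over `(γ, y)`. -/
noncomputable def frU (γ : G) (y : YY N) : MN N := S.kR γ * ql (D T.b (colM y))

theorem frU_unitary (γ : G) (y : YY N) : IsU (frU T γ y) :=
  (S.uR γ).mul (ql_unitary _)

theorem frU_mul (g h γ : G) (y y' : YY N) : (frU T γ y)ᴴ * P.ι h * frU T (g⁻¹ * γ * h) y' =
    (ql (D T.b (colM y)))ᴴ * S.m g h γ * ql (D T.b (colM y')) := by
  unfold frU Su.m
  rw [Matrix.conjTranspose_mul]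
  simp only [mul_assoc]

private theorem off_u12 {b : Fin N → ℕ} {A : MN N} (hA : D b A = A) {i j : Fin N} (h : b i ≠ b j) :
    A i j = 0 := by
  rw [← hA, D_apply, if_neg h]

private theorem entry_u12 (q m q' : MN N) (i j : Fin N) :
    (qᴴ * m * q') i j = ∑ l, ∑ k, star (q k i) * m k l * q' l j := by
  rw [Matrix.mul_apply]
  refine Finset.sum_congr rfl fun l _ => ?_
  rw [Matrix.mul_apply, Finset.sum_mul]
  refine Finset.sum_congr rfl fun k _ => ?_
  rw [Matrix.conjTranspose_apply]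

theorem frU_entries (g h γ : G) {y' : YY N} (hC : T.C g h γ ∈ GLb T.b) (hy' : Gen T.b y') {i j : Fin N}
    (hij : i < j) : ‖((frU T γ fun k => T.C g h γ *ᵥ y' k)ᴴ * P.ι h * frU T (g⁻¹ * γ * h) y') i j‖ ≤
      ∑ k, ∑ l, if T.b k < T.b l then ‖S.m g h γ k l‖ else 0 := by
  classical
  rw [frU_mul, colM_mulVec, D_mul_left T.b hC.1]
  set A := D T.b (colM y') with hA
  set C := T.C g h γ with hCdef
  set m := S.m g h γ with hm
  have hAA : D T.b A = A := D_D T.b _
  have hq : D T.b (ql (C * A)) = ql (C * A) :=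
    ql_D T.mono (by rw [D_mul_left T.b hC.1, hAA])
  have hq' : D T.b (ql A) = ql A := ql_D T.mono hAA
  have h0 : 0 ≤ ∑ k, ∑ l, if T.b k < T.b l then ‖m k l‖ else 0 :=
    Finset.sum_nonneg fun k _ => Finset.sum_nonneg fun l _ => by
      split_ifs
      · exact norm_nonneg _
      · exact le_refl _
  rcases eq_or_lt_of_le (T.mono hij.le) with hb | hb
  · -- the same block
    have h1 : ((ql (C * A))ᴴ * m * ql A) i j = ((ql (C * A))ᴴ * C * ql A) i j := by
      rw [entry_u12, entry_u12]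
      refine Finset.sum_congr rfl fun l _ => Finset.sum_congr rfl fun k _ => ?_
      by_cases hk : T.b k = T.b i
      · by_cases hl : T.b l = T.b j
        · have h2 : C k l = m k l := by
            change D T.b m k l = m k l
            rw [D_apply, if_pos (hk.trans (hb.trans hl.symm))]
          rw [h2]
        · rw [off_u12 hq' hl, mul_zero, mul_zero]
      · rw [off_u12 hq hk, star_zero, zero_mul, zero_mul, zero_mul, zero_mul]
    rw [h1, ql_rel hy' hC.2 hij, norm_zero]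
    exact h0
  · -- different blocks
    rw [entry_u12, Finset.sum_comm]
    refine (norm_sum_le _ _).trans (Finset.sum_le_sum fun k _ => ?_)
    refine (norm_sum_le _ _).trans (Finset.sum_le_sum fun l _ => ?_)
    by_cases hk : T.b k = T.b i
    · by_cases hl : T.b l = T.b j
      · rw [if_pos (by rw [hk, hl]; exact hb), norm_mul, norm_mul, norm_star]
        calc ‖ql (C * A) k i‖ * ‖m k l‖ * ‖ql A l j‖ ≤ 1 * ‖m k l‖ * 1 := by
              gcongr
              · exact norm_entry_le_one (ql_unitary _) _ _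
              · exact norm_entry_le_one (ql_unitary _) _ _
          _ = ‖m k l‖ := by ring
      · rw [off_u12 hq' hl, mul_zero, norm_zero]
        split_ifs
        · exact norm_nonneg _
        · exact le_refl _
    · rw [off_u12 hq hk, star_zero, zero_mul, zero_mul, norm_zero]
      split_ifs
      · exact norm_nonneg _
      · exact le_refl _

/-- The bound of `fr_entries` tends to zero. -/
theorem tendsto_upperU (g h : G) (n : ℕ) :
    Tendsto (fun γ => ∑ k, ∑ l, if T.b k < T.b l then ‖S.m g h γ k l‖ else 0) (T.F n) (𝓝 0) := by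
  have h1 : Tendsto (fun γ => ∑ k, ∑ l, if T.b k < T.b l then ‖S.m g h γ k l‖ else 0) (T.F n)
      (𝓝 (∑ _k : Fin N, ∑ _l : Fin N, (0 : ℝ))) := by
    refine tendsto_finset_sum _ fun k _ => tendsto_finset_sum _ fun l _ => ?_
    by_cases hkl : T.b k < T.b l
    · simp only [if_pos hkl]
      have h2 := (T.tendsto_m g h n hkl).norm
      rwa [norm_zero] at h2
    · simp only [if_neg hkl]
      exact tendsto_const_nhds
  simpa using h1



variable {Q : Finset G} {ε : ℝ}

/-- The multipliers. -/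
noncomputable def mtU (A : AMd P Q ε) (T : StU S) (γ t : G) (y : YY N) : ℝ := Real.sqrt (A.κ (frU T γ y) t)

theorem mtU_hm (A : AMd P Q ε) (T : StU S) (γ t : G) : Pool.Agent.Helper90.RK.Hm T.b (mtU A T γ t) :=
  hm_k A T.mono (S.uR γ) t

theorem mtU_sum (A : AMd P Q ε) (T : StU S) (γ : G) (y : YY N) : ∑ t ∈ A.supp, mtU A T γ t y ^ 2 = 1 := by
  rw [← A.sum _ (frU_unitary T γ y)]
  exact Finset.sum_congr rfl fun t _ => Real.sq_sqrt (A.nonneg _ _)

theorem mtU_left (A : AMd P Q ε) (T : StU S) (g : G) (n : ℕ) {ε' : ℝ} (hε' : 0 < ε') :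
    ∀ᶠ γ in T.F n, ∀ y : YY N, Gen T.b y →
      ∑ t ∈ A.supp, (mtU A T γ t (fun k => T.C g 1 γ *ᵥ y k) - mtU A T (g⁻¹ * γ * 1) t y) ^ 2 ≤ ε' := by
  obtain ⟨d', hd', hn⟩ := A.near ε' hε'
  obtain ⟨R, r, hr, hK⟩ := T.C_compact g 1
  obtain ⟨c, hc, hc1⟩ := Pool.Agent.Helper90.RK.iota_one P
  filter_upwards [(tendsto_upperU T g 1 n).eventually (gt_mem_nhds hd'), hK n] with γ h1 h2 y hy
  have hC : T.C g 1 γ ∈ GLb T.b := Kb_sub T.b hr h2
  have h3 := hn (frU T γ fun k => T.C g 1 γ *ᵥ y k) (frU T (g⁻¹ * γ * 1) y) (frU_unitary T γ _)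
    (frU_unitary T _ y) (fun i j hij => by
      have h4 := frU_entries T g 1 γ hC hy hij
      rw [hc1, Matrix.mul_smul, Matrix.smul_mul, Matrix.smul_apply, norm_smul, hc, one_mul,
        mul_one] at h4
      exact h4.trans (le_of_lt h1))
  refine (Finset.sum_le_sum fun t _ => ?_).trans h3
  exact sqrt_sub_sq_le3 (A.nonneg _ _) (A.nonneg _ _)

theorem mtU_right (A : AMd P Q ε) (T : StU S) {h : G} (hh : h ∈ Q) (n : ℕ) :
    ∀ᶠ γ in T.F n, ∀ y : YY N, Gen T.b y → ∀ s : Finset G,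
      ∑ t ∈ s, (mtU A T γ t (fun k => T.C 1 h γ *ᵥ y k) - mtU A T (1⁻¹ * γ * h) (h⁻¹ * t) y) ^ 2 ≤ ε := by
  obtain ⟨R, r, hr, hK⟩ := T.C_compact 1 h
  filter_upwards [(tendsto_upperU T 1 h n).eventually (gt_mem_nhds A.dpos), hK n] with γ h1 h2 y hy s
  have hC : T.C 1 h γ ∈ GLb T.b := Kb_sub T.b hr h2
  have h3 := A.tri h hh (frU T γ fun k => T.C 1 h γ *ᵥ y k) (frU T (1⁻¹ * γ * h) y) (frU_unitary T γ _)
    (frU_unitary T _ y) (fun i j hij =>
      (frU_entries T 1 h γ hC hy hij).trans (le_of_lt h1)) s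
  refine (Finset.sum_le_sum fun t _ => ?_).trans h3
  exact sqrt_sub_sq_le3 (A.nonneg _ _) (A.nonneg _ _)



variable {L : Type} [NormedAddCommGroup L] [InnerProductSpace ℂ L]

private theorem hm_const77 {b : Fin N → ℕ} (c : ℝ) :
    Pool.Agent.Helper90.RK.Hm b (fun _ : YY N => c) :=
  ⟨measurable_const, ⟨|c|, fun _ => le_rfl⟩, fun _ _ _ => rfl⟩

private theorem mu_zero77 {b : Fin N → ℕ} (Ψ : Pool.Agent.Helper90.RK.FibM b L) (f : L) :
    Ψ.mu (fun _ => 0) f = 0 := by
  have h1 := Ψ.sq1 ({()} : Finset Unit) (fun _ _ => 1) (fun _ _ => hm_const77 1)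
    (fun x _ => by simp) f
  have h2 := Ψ.sq1 (Finset.univ : Finset Bool) (fun b => if b then (fun _ => 1) else fun _ => 0) (by
      intro b _
      cases b
      · simpa using hm_const77 0
      · simpa using hm_const77 1) (fun x _ => by simp) f
  simp only [Finset.sum_singleton] at h1
  simp only [Fintype.sum_bool, if_true, Bool.false_eq_true, if_false] at h2
  rw [h1] at h2
  have h3 : ‖Ψ.mu (fun _ => 0) f‖ ^ 2 = 0 := by linarith
  exact norm_eq_zero.1 (pow_eq_zero_iff (two_ne_zero)|>.1 h3)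

private theorem mt_zero77 (T : StU S) (A : AMd P Q ε) (γ : G) {t : G} (ht : t ∉ A.supp) :
    mtU A T γ t = fun _ => 0 := by
  funext y
  unfold mtU
  rw [A.off _ _ ht, Real.sqrt_zero]

theorem mulU_off (T : StU S) (Ψ : Pool.Agent.Helper90.RK.FibM T.b L) (A : AMd P Q ε) (γ t : G)
    (ht : t ∉ A.supp) : Ψ.mu (mtU A T γ t) = 0 := by
  rw [mt_zero77 T A γ ht]
  exact ContinuousLinearMap.ext fun f => mu_zero77 Ψ f

theorem mulU_sum (T : StU S) (Ψ : Pool.Agent.Helper90.RK.FibM T.b L) (A : AMd P Q ε) (γ : G) (f : L) :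
    ∑ t ∈ A.supp, ‖Ψ.mu (mtU A T γ t) f‖ ^ 2 = ‖f‖ ^ 2 :=
  Ψ.sq1 A.supp (fun t => mtU A T γ t) (fun t _ => mtU_hm A T γ t) (fun y _ => mtU_sum A T γ y) f

private theorem compactU77 : IsCompact {k : MN N | IsU k} := by
  have h1 : IsCompact (Set.univ.pi fun _ : Fin N => (Set.univ.pi fun _ : Fin N =>
      Metric.closedBall (0 : ℂ) 1)) :=
    isCompact_univ_pi fun _ => isCompact_univ_pi fun _ => isCompact_closedBall 0 1
  have h2 : IsClosed {k : MN N | IsU k} := by
    have : Continuous fun k : MN N => kᴴ * k := by fun_prop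
    exact isClosed_eq this continuous_const
  refine IsCompact.of_isClosed_subset h1 h2 ?_
  intro k hk
  refine Set.mem_univ_pi.2 fun i => Set.mem_univ_pi.2 fun j => ?_
  rw [mem_closedBall_zero_iff]
  exact norm_entry_le_one hk i j

private theorem sqrt_sub77 {a b : ℝ} (ha : 0 ≤ a) (hb : 0 ≤ b) :
    (Real.sqrt a - Real.sqrt b) ^ 2 ≤ |a - b| := by
  have h1 : a - b = (Real.sqrt a - Real.sqrt b) * (Real.sqrt a + Real.sqrt b) := by
    have e1 := Real.sq_sqrt ha
    have e2 := Real.sq_sqrt hb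
    nlinarith
  have h2 : |Real.sqrt a - Real.sqrt b| ≤ Real.sqrt a + Real.sqrt b := by
    rw [abs_le]
    constructor <;> linarith [Real.sqrt_nonneg a, Real.sqrt_nonneg b]
  rw [h1, abs_mul, ← sq_abs, sq, abs_of_nonneg (add_nonneg (Real.sqrt_nonneg a) (Real.sqrt_nonneg b))]
  exact mul_le_mul_of_nonneg_left h2 (abs_nonneg _)

theorem mulU_cpt (T : StU S) (Ψ : Pool.Agent.Helper90.RK.FibM T.b L) (A : AMd P Q ε) (t : G) (w : L) :
    ∃ K : Set L, IsCompact K ∧ ∀ γ, Ψ.mu (mtU A T γ t) w ∈ K := by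
  by_cases ht : t ∈ A.supp
  · refine ⟨(fun k : MN N => Ψ.mu (fun y => Real.sqrt (A.κ (k * ql (D T.b (colM y))) t)) w) ''
      {k : MN N | IsU k}, ?_, ?_⟩
    · refine compactU77.image_of_continuousOn ?_
      intro k0 hk0
      have hk0' : IsU k0 := hk0
      refine Metric.tendsto_nhds.2 fun e he => ?_
      -- the allowed deviation
      set e1 : ℝ := (e / (‖w‖ + 1)) ^ 2 / 2 with he1
      have hw : 0 < ‖w‖ + 1 := by positivity
      have he1p : 0 < e1 := by positivity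
      obtain ⟨d', hd', hn⟩ := A.near e1 he1p
      have hcont : ContinuousAt (fun k : MN N => ns (kᴴ * k0 - 1)) k0 := by
        have : Continuous fun k : MN N => ns (kᴴ * k0 - 1) := by
          unfold ns
          refine continuous_finsetSum _ fun i _ => continuous_finsetSum _ fun j _ => ?_
          have h5 : Continuous fun k : MN N => (kᴴ * k0 - 1) i j := by
            have : Continuous fun k : MN N => kᴴ * k0 - 1 := by fun_prop
            exact this.matrix_elem i j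
          exact h5.norm.pow 2
        exact this.continuousAt
      have hz : ns (k0ᴴ * k0 - 1) = 0 := by
        have : k0ᴴ * k0 = 1 := hk0'
        rw [this, sub_self]
        simp [ns]
      have hev : ∀ᶠ k in 𝓝[{k : MN N | IsU k}] k0, ns (kᴴ * k0 - 1) < d' ^ 2 := by
        have := hcont.tendsto
        rw [hz] at this
        exact (this.eventually (gt_mem_nhds (by positivity))).filter_mono nhdsWithin_le_nhds
      filter_upwards [hev, self_mem_nhdsWithin] with k hk hkU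
      have hkU' : IsU k := hkU
      have hmain : ∀ y : YY N,
          (Real.sqrt (A.κ (k * ql (D T.b (colM y))) t) -
            Real.sqrt (A.κ (k0 * ql (D T.b (colM y))) t)) ^ 2 ≤ e1 := by
        intro y
        have hr := ql_unitary (D T.b (colM y))
        set q := ql (D T.b (colM y)) with hq
        refine (sqrt_sub77 (A.nonneg _ _) (A.nonneg _ _)).trans ?_
        have h6 := hn (k * q) (k0 * q) (hkU'.mul hr) (hk0'.mul hr) (by
          intro i j hij
          have h7 : ((k * q)ᴴ * (k0 * q)) i j = (qᴴ * (kᴴ * k0 - 1) * q) i j := by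
            have h8 : qᴴ * (kᴴ * k0 - 1) * q = (k * q)ᴴ * (k0 * q) - 1 := by
              have hr' : qᴴ * q = 1 := hr
              rw [Matrix.conjTranspose_mul, Matrix.mul_sub, Matrix.sub_mul, Matrix.mul_one, hr']
              simp only [Matrix.mul_assoc]
            rw [h8, Matrix.sub_apply, Matrix.one_apply_ne (ne_of_lt hij), sub_zero]
          rw [h7]
          have h9 := norm_apply_sq_le (qᴴ * (kᴴ * k0 - 1) * q) i j
          rw [ns_mul_unitary hr, ns_unitary_mul hr.star] at h9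
          exact abs_le_of_sq_le_sq' (by linarith) hd'.le |>.2)
        exact (Finset.single_le_sum (f := fun t => |A.κ (k * q) t - A.κ (k0 * q) t|)
          (fun _ _ => abs_nonneg _) ht).trans h6
      have h10 := Ψ.sq2 ({()} : Finset Unit)
        (fun _ y => Real.sqrt (A.κ (k * ql (D T.b (colM y))) t))
        (fun _ y => Real.sqrt (A.κ (k0 * ql (D T.b (colM y))) t)) e1
        (fun _ _ => hm_k A T.mono hkU' t)
        (fun _ _ => hm_k A T.mono hk0' t) (fun x _ => by simpa using hmain x) w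
      simp only [Finset.sum_singleton] at h10
      rw [dist_eq_norm]
      refine lt_of_pow_lt_pow_left₀ 2 he.le (lt_of_le_of_lt h10 ?_)
      have h11 : ‖w‖ ^ 2 ≤ (‖w‖ + 1) ^ 2 := by
        have := norm_nonneg w
        nlinarith
      calc e1 * ‖w‖ ^ 2 ≤ e1 * (‖w‖ + 1) ^ 2 := mul_le_mul_of_nonneg_left h11 he1p.le
        _ = e ^ 2 / 2 := by rw [he1]; field_simp
        _ < e ^ 2 := by nlinarith [pow_pos he 2]
    · intro γ
      exact ⟨S.kR γ, S.uR γ, rfl⟩
  · refine ⟨{0}, isCompact_singleton, fun γ => ?_⟩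
    rw [mt_zero77 T A γ ht, mu_zero77]
    rfl

private theorem mulVec_scal77 {b : Fin N → ℕ} {C : MN N} (hC : D b C = C) {z : Fin N → ℂ}
    (hz : IsBs b z) (y : Fin N → ℂ) : C *ᵥ (z * y) = z * (C *ᵥ y) := by
  funext i
  show ∑ k, C i k * (z k * y k) = z i * ∑ k, C i k * y k
  rw [Finset.mul_sum]
  refine Finset.sum_congr rfl fun k _ => ?_
  by_cases h : b i = b k
  · rw [hz.2 i k h]
    ring
  · have h1 : C i k = 0 := by
      rw [← hC, D_apply, if_neg h]
    rw [h1]
    ring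

private theorem hm_comp77 {b : Fin N → ℕ} {m : YY N → ℝ} (hm : Pool.Agent.Helper90.RK.Hm b m)
    {C : MN N} (hC : D b C = C) : Pool.Agent.Helper90.RK.Hm b (fun y => m (fun j => C *ᵥ y j)) where
  meas := by
    have h : Measurable fun y : YY N => (fun j => C *ᵥ y j : YY N) := by
      refine measurable_pi_lambda _ fun j => measurable_pi_lambda _ fun i => ?_
      show Measurable fun y : YY N => ∑ k, C i k * y j k
      exact Finset.measurable_sum _ fun k _ =>
        measurable_const.mul ((measurable_pi_apply k).comp (measurable_pi_apply j))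
    exact hm.meas.comp h
  bdd := by
    obtain ⟨c, hc⟩ := hm.bdd
    exact ⟨c, fun y => hc _⟩
  hom := fun z hz y => by
    show m (fun j => C *ᵥ (z * y j)) = m (fun j => C *ᵥ y j)
    have h : (fun j => C *ᵥ (z * y j)) = fun j => z * (C *ᵥ y j) :=
      funext fun j => mulVec_scal77 hC hz (y j)
    rw [h, hm.hom z hz]

private theorem point77 (T : StU S) (Ψ : Pool.Agent.Helper90.RK.FibM T.b L) (A : AMd P Q ε)
    {γ γ' : G} {C : MN N} (hC : C ∈ GLb T.b) (s : Finset G) (k : G → G) {a : ℝ}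
    (h : ∀ y : YY N, Gen T.b y →
      ∑ t ∈ s, (mtU A T γ t (fun j => C *ᵥ y j) - mtU A T γ' (k t) y) ^ 2 ≤ a) (v : L) :
    ∑ t ∈ s, ‖Ψ.mu (mtU A T γ t) (Ψ.Φ.π C v) - Ψ.Φ.π C (Ψ.mu (mtU A T γ' (k t)) v)‖ ^ 2 ≤
      a * ‖v‖ ^ 2 := by
  have hu : IsUnit C.det := isUnit_iff_ne_zero.2 hC.2
  have hCi : C⁻¹ ∈ GLb T.b := GLb_inv T.b hC
  have h1 := Ψ.sq2 s (fun t => mtU A T γ t) (fun t y => mtU A T γ' (k t) (fun j => C⁻¹ *ᵥ y j)) a
    (fun t _ => mtU_hm A T γ t) (fun t _ => hm_comp77 (mtU_hm A T γ' (k t)) hCi.1) (fun x hx => by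
      have e1 : (fun j => C *ᵥ (C⁻¹ *ᵥ x j)) = x := by
        funext j
        rw [Matrix.mulVec_mulVec, Matrix.mul_nonsing_inv _ hu, Matrix.one_mulVec]
      have h2 := h (fun j => C⁻¹ *ᵥ x j) (Gen_mulVec hCi hx)
      rw [e1] at h2
      exact h2) (Ψ.Φ.π C v)
  rw [LinearIsometryEquiv.norm_map] at h1
  refine le_trans (le_of_eq ?_) h1
  refine Finset.sum_congr rfl fun t _ => ?_
  rw [Ψ.equi _ C (mtU_hm A T γ' (k t)) hC v]

private theorem C_mem77 (T : StU S) (g h : G) (n : ℕ) : ∀ᶠ γ in T.F n, T.C g h γ ∈ GLb T.b := by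
  obtain ⟨R, r, hr, hc⟩ := T.C_compact g h
  filter_upwards [hc n] with γ hγ
  exact Kb_sub T.b hr hγ

theorem mulU_left (T : StU S) (Ψ : Pool.Agent.Helper90.RK.FibM T.b L) (A : AMd P Q ε) (t g : G) (n : ℕ) (w : L) :
    Tendsto (fun γ => Ψ.mu (mtU A T γ t) (Ψ.Φ.π (T.C g 1 γ) w) -
      Ψ.Φ.π (T.C g 1 γ) (Ψ.mu (mtU A T (g⁻¹ * γ * 1) t) w)) (T.F n) (𝓝 0) := by
  by_cases ht : t ∈ A.supp
  · refine Metric.tendsto_nhds.2 fun e he => ?_
    set e1 : ℝ := (e / (‖w‖ + 1)) ^ 2 / 2 with he1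
    have hw : 0 < ‖w‖ + 1 := by positivity
    have he1p : 0 < e1 := by positivity
    filter_upwards [C_mem77 T g 1 n, mtU_left A T g n he1p] with γ hγ h1
    have h2 := point77 T Ψ A hγ {t} id (a := e1) (γ := γ) (γ' := g⁻¹ * γ * 1) (fun y hy => by
      rw [Finset.sum_singleton]
      exact (Finset.single_le_sum (f := fun t => (mtU A T γ t (fun k => T.C g 1 γ *ᵥ y k) -
        mtU A T (g⁻¹ * γ * 1) t y) ^ 2) (fun _ _ => sq_nonneg _) ht).trans (h1 y hy)) w
    rw [Finset.sum_singleton] at h2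
    rw [dist_zero_right]
    refine lt_of_pow_lt_pow_left₀ 2 he.le (lt_of_le_of_lt h2 ?_)
    have h11 : ‖w‖ ^ 2 ≤ (‖w‖ + 1) ^ 2 := by
      have := norm_nonneg w
      nlinarith
    calc e1 * ‖w‖ ^ 2 ≤ e1 * (‖w‖ + 1) ^ 2 := mul_le_mul_of_nonneg_left h11 he1p.le
      _ = e ^ 2 / 2 := by rw [he1]; field_simp
      _ < e ^ 2 := by nlinarith [pow_pos he 2]
  · have h1 : (fun γ => Ψ.mu (mtU A T γ t) (Ψ.Φ.π (T.C g 1 γ) w) -
      Ψ.Φ.π (T.C g 1 γ) (Ψ.mu (mtU A T (g⁻¹ * γ * 1) t) w)) = fun _ => 0 := by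
      funext γ
      rw [mt_zero77 T A γ ht, mt_zero77 T A _ ht, mu_zero77, mu_zero77, map_zero, sub_zero]
    rw [h1]
    exact tendsto_const_nhds

theorem mulU_right (T : StU S) (Ψ : Pool.Agent.Helper90.RK.FibM T.b L) (A : AMd P Q (ε ^ 2)) (h : G) (hh : h ∈ Q)
    (n : ℕ) : ∀ᶠ γ in T.F n, ∀ (s : Finset G) (f : L),
      ∑ t ∈ s, ‖Ψ.mu (mtU A T γ t) (Ψ.Φ.π (T.C 1 h γ) f) -
        Ψ.Φ.π (T.C 1 h γ) (Ψ.mu (mtU A T (1⁻¹ * γ * h) (h⁻¹ * t)) f)‖ ^ 2 ≤ ε ^ 2 * ‖f‖ ^ 2 := by
  filter_upwards [C_mem77 T 1 h n, mtU_right A T hh n] with γ hγ h1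
  intro s f
  exact point77 T Ψ A hγ s (fun t => h⁻¹ * t) (fun y hy => h1 y hy s) f

/-- The multiplier data over a stratum. -/
theorem exists_MulU (T : StU S) (Ψ : Pool.Agent.Helper90.RK.FibM T.b L) (Q : Finset G) (ε : ℝ) (hε : 0 < ε) :
    Nonempty (Mul (toCocU T Ψ) Q ε) := by
  obtain ⟨A⟩ := exists_AMd P Q (pow_pos hε 2)
  exact ⟨{
    supp := A.supp
    mo := fun γ t => Ψ.mu (mtU A T γ t)
    off := mulU_off T Ψ A
    sum := mulU_sum T Ψ A
    cpt := mulU_cpt T Ψ A
    left := mulU_left T Ψ A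
    right := mulU_right T Ψ A }⟩



/-- Unsorted strata have cocycles with multipliers. -/
theorem hasCocU (T : StU S) : HasCoc T.toReg := by
  obtain ⟨L, i1, i2, i3, ⟨Ψ⟩⟩ := exists_fibM T.b
  exact ⟨L, i1, i2, i3, toCocU T Ψ, fun Q ε hε => exists_MulU T Ψ Q ε hε⟩

end Pool.Agent.Helper43.FQ
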