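import Pool.Agent.Helper43.FQ.Gap
import Pool.Agent.Helper43.FQ.Mu

/-!
# Project FQ (MP_0f6f3f_an, full question), layer TIGHT: target data

`Tg P r`: a singular value decomposition of the representation `P` adapted to `r` gap functions (the simple roots of the Cartan projection): the singular values are the exponentials of weights, `cls i l` is the coefficient
of the `i`-th weight at the simple root `l`; `asyR`, `asyL`: when the gap `l` is large then the matrices `m`, `n` are almost block triangular for the grading by `cls · l`, without condition on the other gaps.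
`Tg.hasCoc`: for every set `J` of nodes the stratum `A.reg J` has cocycles with multipliers (`HasCoc`).
-/

set_option autoImplicit false

open Filter Topology Matrix

namespace Pool.Agent.Helper43.FQ

open Pool.Agent.Helper84.NI Pool.Agent.Helper90.RK Pool.Agent.Helper84.GN Pool.Agent.Helper96.RK

/-- Target data. -/
structure Tg {G : Type} [Group G] {N : ℕ} (P : PH G N) (r : ℕ) extends Gp G r, Su P where
  /-- the coefficients of the weights in the simple roots -/
  cls : Fin N → Fin r → ℤ
  ratio : ∀ γ i j, s γ i = s γ j * Real.exp (∑ l, ((cls i l - cls j l : ℤ) : ℝ) * gap γ l)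
  asyR : ∀ (g h : G) (l : Fin r) (i j : Fin N), cls j l < cls i l →
    Tendsto (fun γ => toSu.m g h γ i j) (comap (fun γ => gap γ l) atTop) (𝓝 0)
  asyL : ∀ (h : G) (l : Fin r) (i j : Fin N), cls i l < cls j l →
    Tendsto (fun γ => toSu.n 1 h γ i j) (comap (fun γ => gap γ l) atTop) (𝓝 0)

section Perm

variable {G : Type} [Group G] {N : ℕ} {P : PH G N}

private theorem isU_sub {k : MN N} (hk : IsU k) (σ : Equiv.Perm (Fin N)) : IsU (k.submatrix id σ) := by
  unfold IsU at hk ⊢
  rw [Matrix.conjTranspose_submatrix, ← Matrix.submatrix_mul _ _ σ id σ Function.bijective_id, hk,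
    Matrix.submatrix_one _ σ.injective]

/-- Reordering. -/
def Su.perm (S : Su P) (σ : Equiv.Perm (Fin N)) : Su P where
  kL g := (S.kL g).submatrix id σ
  kR g := (S.kR g).submatrix id σ
  s g i := S.s g (σ i)
  uL g := isU_sub (S.uL g) σ
  uR g := isU_sub (S.uR g) σ
  pos g i := S.pos g _
  spec g := by
    have h3 : diagonal (fun i : Fin N => (S.s g (σ i) : ℂ)) =
        (diagonal (fun i => (S.s g i : ℂ))).submatrix σ σ := by
      rw [Matrix.submatrix_diagonal _ _ σ.injective]
      rfl
    rw [h3, Matrix.conjTranspose_submatrix,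
      ← Matrix.submatrix_mul _ _ id σ σ σ.bijective, ← Matrix.submatrix_mul _ _ id σ id σ.bijective,
      Matrix.submatrix_id_id]
    exact S.spec g

theorem Su.perm_m (S : Su P) (σ : Equiv.Perm (Fin N)) (g h γ : G) (i j : Fin N) :
    (S.perm σ).m g h γ i j = S.m g h γ (σ i) (σ j) := rfl

theorem Su.perm_n (S : Su P) (σ : Equiv.Perm (Fin N)) (g h γ : G) (i j : Fin N) :
    (S.perm σ).n g h γ i j = S.n g h γ (σ i) (σ j) := rfl

end Perm

namespace Tg

variable {G : Type} [Group G] {N : ℕ} {P : PH G N} {r : ℕ} (A : Tg P r)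

/-- The class of a weight: the coefficients outside of `J`. -/
def vJ (J : Finset (Fin r)) (i : Fin N) : Lex (Fin r → ℤ) := toLex fun l => if l ∈ J then 0 else A.cls i l

open Classical in
/-- The block function of `J`: larger weights first. -/
noncomputable def bJ (J : Finset (Fin r)) (i : Fin N) : ℕ :=
  ((Finset.univ.image (A.vJ J)).filter fun w => A.vJ J i < w).card

theorem bJ_anti {J : Finset (Fin r)} {i j : Fin N} (h : A.vJ J i ≤ A.vJ J j) : A.bJ J j ≤ A.bJ J i := by
  classical
  refine Finset.card_le_card fun w hw => ?_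
  rw [Finset.mem_filter] at hw ⊢
  exact ⟨hw.1, lt_of_le_of_lt h hw.2⟩

theorem bJ_lt {J : Finset (Fin r)} {i j : Fin N} (h : A.vJ J i < A.vJ J j) : A.bJ J j < A.bJ J i := by
  classical
  refine Finset.card_lt_card ?_
  rw [Finset.ssubset_iff_of_subset (fun w hw => by
    rw [Finset.mem_filter] at hw ⊢
    exact ⟨hw.1, h.trans hw.2⟩)]
  refine ⟨A.vJ J j, ?_, ?_⟩
  · rw [Finset.mem_filter]
    exact ⟨Finset.mem_image_of_mem _ (Finset.mem_univ _), h⟩
  · rw [Finset.mem_filter]
    exact fun h1 => lt_irrefl _ h1.2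

theorem exists_of_bJ_lt {J : Finset (Fin r)} {i j : Fin N} (h : A.bJ J i < A.bJ J j) :
    ∃ l, l ∉ J ∧ A.cls j l < A.cls i l := by
  have h1 : A.vJ J j < A.vJ J i := by
    rcases lt_or_ge (A.vJ J j) (A.vJ J i) with h1 | h1
    · exact h1
    · exact absurd h (not_lt.2 (A.bJ_anti h1))
  obtain ⟨l, -, hl⟩ := h1
  have hl' : (if l ∈ J then (0 : ℤ) else A.cls j l) < (if l ∈ J then (0 : ℤ) else A.cls i l) := hl
  by_cases hJ : l ∈ J
  · rw [if_pos hJ, if_pos hJ] at hl'
    exact absurd hl' (lt_irrefl _)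
  · rw [if_neg hJ, if_neg hJ] at hl'
    exact ⟨l, hJ, hl'⟩

theorem cls_eq_of_bJ {J : Finset (Fin r)} {i j : Fin N} (h : A.bJ J i = A.bJ J j) {l : Fin r} (hl : l ∉ J) :
    A.cls i l = A.cls j l := by
  have h1 : A.vJ J i = A.vJ J j := by
    rcases lt_trichotomy (A.vJ J i) (A.vJ J j) with h1 | h1 | h1
    · exact absurd h (A.bJ_lt h1).ne'
    · exact h1
    · exact absurd h (A.bJ_lt h1).ne
  have h2 := congrFun (toLex.injective h1) l
  simp only [if_neg hl] at h2
  exact h2

/-- The permutation which sorts the blocks. -/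
noncomputable def sg (J : Finset (Fin r)) : Equiv.Perm (Fin N) := Tuple.sort (A.bJ J)

/-- The stratum of `J`. -/
noncomputable def stU (J : Finset (Fin r)) : StU (A.toSu.perm (A.sg J)) where
  b i := A.bJ J (A.sg J i)
  mono := Tuple.monotone_sort (A.bJ J)
  W := A.WW J
  F := A.FF J
  monoF := (A.reg J).monoF
  le := (A.reg J).le
  shift := (A.reg J).shift
  asm g h n i j hij := by
    obtain ⟨l, hl, hlt⟩ := A.exists_of_bJ_lt hij
    refine ((A.asyR g h l _ _ hlt).mono_left (A.FF_le_comap J n hl)).congr fun γ => ?_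
    exact (A.toSu.perm_m _ g h γ i j).symm
  asn h n i j hij := by
    obtain ⟨l, hl, hlt⟩ := A.exists_of_bJ_lt hij
    refine ((A.asyL h l _ _ hlt).mono_left (A.FF_le_comap J n hl)).congr fun γ => ?_
    exact (A.toSu.perm_n _ 1 h γ i j).symm
  cpt n := by
    obtain ⟨M, hM⟩ : ∃ M : ℝ, ∀ (p : Fin N × Fin N × Fin r), |((A.cls p.1 p.2.2 - A.cls p.2.1 p.2.2 : ℤ) : ℝ)| ≤ M := by
      obtain ⟨M, hM⟩ := (Set.finite_range fun p : Fin N × Fin N × Fin r =>
        |((A.cls p.1 p.2.2 - A.cls p.2.1 p.2.2 : ℤ) : ℝ)|).bddAbove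
      exact ⟨M, fun p => hM ⟨p, rfl⟩⟩
    refine ⟨Real.exp (∑ _l : Fin r, M * n), fun γ hγ i j hij => ?_⟩
    change A.s γ (A.sg J i) ≤ _ * A.s γ (A.sg J j)
    rw [A.ratio γ (A.sg J i) (A.sg J j), mul_comm]
    refine mul_le_mul_of_nonneg_right (Real.exp_le_exp.2 (Finset.sum_le_sum fun l _ => ?_)) (A.pos _ _).le
    by_cases hl : l ∈ J
    · have h1 := hM (A.sg J i, A.sg J j, l)
      have h2 := hγ l hl
      have h3 := A.nonneg γ l
      have h0 : 0 ≤ M := (abs_nonneg _).trans h1
      calc ((A.cls (A.sg J i) l - A.cls (A.sg J j) l : ℤ) : ℝ) * A.gap γ l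
          ≤ |((A.cls (A.sg J i) l - A.cls (A.sg J j) l : ℤ) : ℝ)| * A.gap γ l :=
            mul_le_mul_of_nonneg_right (le_abs_self _) h3
        _ ≤ M * n := mul_le_mul h1 h2 h3 h0
    · rw [A.cls_eq_of_bJ hij hl, sub_self, Int.cast_zero, zero_mul]
      have h0 : 0 ≤ M := (abs_nonneg _).trans (hM (A.sg J i, A.sg J j, l))
      exact mul_nonneg h0 (Nat.cast_nonneg n)

/-- Every stratum has cocycles with multipliers. -/
theorem hasCoc (J : Finset (Fin r)) : HasCoc (A.reg J) := hasCocU (A.stU J)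

end Tg

end Pool.Agent.Helper43.FQ
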