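import Pool.Agent.Helper43.FQ.Typ
import Pool.Agent.Helper43.TA.Ms

/-!
# Project FQ (MP_0f6f3f_an, full question), layer TIGHT: means

`ms_sum`: the mass of `vec b` on a set is the sum of the masses of the type components. `Com j b`: all type components of
`vec b` have at least `j` large gaps. `com_one`, `com_ltr`. `mean_succ`: for a sequence with `Com j` and an element `e`
with contracted nonamenable groups in the centraliser of the sequence the mean of the mass of `e ^ k * b n` outside of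
`A.LG (j + 1) m` tends to zero. `mean_two`: the case `j = 1` for `DatN`. `mean_unif`: the uniform form.
`exists_tauG`: powers `e ^ (τ n)` such that the mass of `e ^ (τ n) b` is where two gaps are larger than `n`.
-/

set_option autoImplicit false
set_option linter.unusedSectionVars false

open MeasureTheory Filter Topology

namespace Pool.Agent.Helper43.FQ

open Pool.Agent.Helper84.NI Pool.Agent.Helper84.GVN Pool.Agent.Helper90.RK
open Pool.Agent.Helper84.GN hiding toReg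
open Pool.Agent.Helper96.RK Pool.Agent.Helper66.FR Pool.Agent.Helper84.FR Pool.Agent.Helper96.FR Pool.Agent.Helper55.FR
open Pool.Agent.Helper43.TA

section One

variable {G1 X G Λ : Type} [Group G1] [MeasurableSpace X] {μ : Measure X} [MulAction G1 X]
  [MeasurableConstSMul G1 X] [SMulInvariantMeasure G1 X μ] [IsProbabilityMeasure μ]
  [Group G] [Group Λ] [Countable Λ] {a : Cocy G1 X Λ} {E : Emb Λ G} {r : ℕ} (A : Gp G r)

theorem ind_XPpr (R : Reg G) (s : Set G) (ξ : UE μ (L2 G)) :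
    UE.map μ (ind ℂ s) ((XPpr R ξ : XUa μ R) : UE μ (L2 G)) =
      ((XPpr R (UE.map μ (ind ℂ s) ξ) : XUa μ R) : UE μ (L2 G)) := by
  change UE.map μ (ind ℂ s) ((XUa μ R).starProjection ξ) =
    (XUa μ R).starProjection (UE.map μ (ind ℂ s) ξ)
  exact (proj_comm (T := UE.map μ (ind ℂ s)) (T' := UE.map μ (ind ℂ s)) (fun x y => xinner_ind s x y)
    (fun x hx => ind_mem_XUa R s hx) (fun x hx => ind_mem_XUa R s hx) ξ).symm

/-- The mass on a set is the sum of the masses of the type components. -/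
theorem ms_sum (s : Set G) (b : ℕ → G1) : ms μ a E s b = ∑ J : Finset (Fin r), mR μ a E (A.reg J) s b := by
  unfold ms mR
  rw [← sum_sq A (UE.map μ (ind ℂ s) (vec μ a E b))]
  refine Finset.sum_congr rfl fun J _ => ?_
  rw [ind_XPpr]
  rfl

variable (μ a E)

/-- All type components have at least `j` large gaps. -/
def Com (j : ℕ) (b : ℕ → G1) : Prop := ∀ J : Finset (Fin r), r < J.card + j → XPpr (A.reg J) (vec μ a E b) = 0

variable {μ a E}

theorem com_zero (b : ℕ → G1) : Com μ a E A 0 b := by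
  intro J hJ
  have h := Finset.card_le_univ J
  rw [Fintype.card_fin] at h
  omega

theorem com_one [TopologicalSpace G1] [IsTopologicalGroup G1] (hF2 : ∀ l : Λ, Tendsto (fun g : G1 => μ {x | a.a g x = l}) (cocompact G1) (𝓝 0))
    {b : ℕ → G1} (hb : Tendsto b atTop (cocompact G1)) : Com μ a E A 1 b := by
  intro J hJ
  have h : J = Finset.univ := by
    rw [← Finset.card_eq_iff_eq_univ, Fintype.card_fin]
    have h := Finset.card_le_univ J
    rw [Fintype.card_fin] at h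
    omega
  rw [h]
  exact comp_univ hF2 hb

theorem xppr_zero_iff {R : Reg G} {b : ℕ → G1} : XPpr R (vec μ a E b) = 0 ↔ mR μ a E R Set.univ b = 0 := by
  have h0 : mR μ a E R Set.univ b = ‖XPpr R (vec μ a E b)‖ ^ 2 := by
    unfold mR
    rw [C_univ]
    rfl
  rw [h0]
  constructor
  · intro h
    rw [h, norm_zero, zero_pow two_ne_zero]
  · intro h
    exact norm_eq_zero.1 (pow_eq_zero_iff (two_ne_zero) |>.1 h)

theorem com_ltr {j : ℕ} {b : ℕ → G1} (hb : Com μ a E A j b) {h : G1} (hh : ∀ n, b n * h = h * b n) :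
    Com μ a E A j (ltr h b) := by
  intro J hJ
  rw [xppr_zero_iff, mR_ltr (μ := μ) (a := a) (E := E) (A.reg J) hh, ← xppr_zero_iff]
  exact hb J hJ

/-- `Com` in terms of masses. -/
theorem com_iff {j : ℕ} {b : ℕ → G1} : Com μ a E A j b ↔ ∀ m, ms μ a E (A.LG j m)ᶜ b = 0 := by
  constructor
  · intro h m
    rw [ms_sum A]
    refine Finset.sum_eq_zero fun J _ => ?_
    rcases Nat.lt_or_ge r (J.card + j) with hJ | hJ
    · have h1 := mR_mono (μ := μ) (a := a) (E := E) (A.reg J) (Set.subset_univ (A.LG j m)ᶜ) b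
      rw [xppr_zero_iff.1 (h J hJ)] at h1
      exact le_antisymm h1 (mR_nonneg _ _ _)
    · rw [← mR_carried (μ := μ) (a := a) (E := E) (A.reg J) (s := A.BB J (m + 1)) (fun n => A.BB_mem_FF J (m + 1) n)]
      have h1 : A.BB J (m + 1) ∩ (A.LG j m)ᶜ = ∅ := by
        rw [Set.eq_empty_iff_forall_notMem]
        rintro γ ⟨h1, h2⟩
        exact h2 (A.BB_sub_LG hJ m h1)
      rw [h1]
      unfold mR
      rw [C_empty, norm_zero, zero_pow two_ne_zero]
  · intro h J hJ
    rw [xppr_zero_iff]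
    have h1 : ∀ n : ℕ, UE.map μ (ind ℂ (A.WW J n)) ((XPpr (A.reg J) (vec μ a E b) : XUa μ (A.reg J)) : UE μ (L2 G)) = 0 := by
      intro n
      have h2 : A.WW J n ⊆ (A.LG j n)ᶜ := by
        intro γ hγ hγ'
        obtain ⟨T, hT, hT2⟩ := hγ'
        have h3 : Disjoint J T := by
          rw [Finset.disjoint_left]
          intro i hi hi'
          exact absurd (hγ i hi) (not_le.2 (hT2 i hi'))
        have h4 := Finset.card_le_univ (J ∪ T)
        rw [Finset.card_union_of_disjoint h3, Fintype.card_fin] at h4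
        omega
      have h3 := ms_mono (μ := μ) (a := a) (E := E) h2 b
      rw [h n] at h3
      have h4 := mR_le_ms (μ := μ) (a := a) (E := E) (A.reg J) (A.WW J n) b
      have h5 : mR μ a E (A.reg J) (A.WW J n) b = 0 := le_antisymm (h4.trans h3) (mR_nonneg _ _ _)
      unfold mR at h5
      exact norm_eq_zero.1 (pow_eq_zero_iff (two_ne_zero) |>.1 h5)
    have h2 : XUa μ (A.reg J) ≤ (ℂ ∙ ((XPpr (A.reg J) (vec μ a E b) : XUa μ (A.reg J)) : UE μ (L2 G)))ᗮ := by
      refine Submodule.topologicalClosure_minimal _ ?_ (Submodule.isClosed_orthogonal _)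
      rw [Submodule.span_le]
      rintro ξ ⟨n, hξ⟩
      rw [SetLike.mem_coe, Submodule.mem_orthogonal_singleton_iff_inner_left]
      have h3 := hξ _ (A.WW_mem_FF J n)
      rw [← h3, xinner_ind, h1 n, inner_zero_right]
    have h3 := h2 (XPpr (A.reg J) (vec μ a E b)).2
    rw [Submodule.mem_orthogonal_singleton_iff_inner_left] at h3
    have h4 := inner_self_eq_zero.1 h3
    unfold mR
    rw [h4, map_zero, norm_zero, zero_pow two_ne_zero]

theorem av_nonneg' {f : ℕ → ℝ} (h : ∀ k, 0 ≤ f k) (K : ℕ) : 0 ≤ av f K := by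
  unfold av
  exact div_nonneg (Finset.sum_nonneg fun k _ => h k) (Nat.cast_nonneg K)

theorem av_mono' {f g : ℕ → ℝ} {K : ℕ} (h : ∀ k < K, f k ≤ g k) : av f K ≤ av g K := by
  unfold av
  exact div_le_div_of_nonneg_right (Finset.sum_le_sum fun k hk => h k (Finset.mem_range.1 hk)) (Nat.cast_nonneg K)

theorem av_sum' {ι : Type} (s : Finset ι) (f : ι → ℕ → ℝ) (K : ℕ) :
    av (fun k => ∑ c ∈ s, f c k) K = ∑ c ∈ s, av (f c) K := by
  unfold av
  rw [Finset.sum_comm, Finset.sum_div]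

theorem av_le_one {f : ℕ → ℝ} (h : ∀ k, f k ≤ 1) (K : ℕ) : av f K ≤ 1 := by
  unfold av
  rcases Nat.eq_zero_or_pos K with rfl | hK
  · simp
  · have hK' : (0 : ℝ) < K := by exact_mod_cast hK
    rw [div_le_one hK']
    calc ∑ k ∈ Finset.range K, f k ≤ ∑ _k ∈ Finset.range K, (1 : ℝ) := Finset.sum_le_sum fun k _ => h k
      _ = K := by simp

/-- The mass where fewer than `j + 1` gaps are larger than `m`. -/
theorem succ_leG {j : ℕ} {b : ℕ → G1} (hb : Com μ a E A j b) (m : ℕ) :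
    ms μ a E (A.LG (j + 1) m)ᶜ b ≤ ∑ J : Finset (Fin r), mR μ a E (A.reg J) (A.WW J m) b := by
  rw [ms_sum A]
  refine Finset.sum_le_sum fun J _ => ?_
  rcases Nat.lt_or_ge r (J.card + j) with hJ | hJ
  · have h1 := mR_mono (μ := μ) (a := a) (E := E) (A.reg J) (Set.subset_univ (A.LG (j + 1) m)ᶜ) b
    rw [xppr_zero_iff.1 (hb J hJ)] at h1
    exact h1.trans (mR_nonneg _ _ _)
  · rw [← mR_carried (μ := μ) (a := a) (E := E) (A.reg J) (s := A.BB J (m + 1)) (fun n => A.BB_mem_FF J (m + 1) n)]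
    refine mR_mono _ ?_ b
    rintro γ ⟨h1, h2⟩ i hi
    by_contra hcon
    rw [not_le] at hcon
    refine h2 ?_
    -- the complement of `J` and `i`
    have h3 : j + 1 ≤ (insert i Jᶜ).card := by
      rw [Finset.card_insert_of_notMem (by simpa using hi), Finset.card_compl, Fintype.card_fin]
      omega
    obtain ⟨T, hT, hTc⟩ := Finset.exists_subset_card_eq h3
    refine ⟨T, hTc, fun i' hi' => ?_⟩
    have h4 := hT hi'
    rw [Finset.mem_insert, Finset.mem_compl] at h4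
    rcases h4 with rfl | h4
    · exact hcon
    · have h5 := h1 i' h4
      push_cast at h5
      linarith

end One

section Main

variable {G1 X G Λ : Type} [Group G1] [TopologicalSpace G1] [IsTopologicalGroup G1] [MeasurableSpace X] {μ : Measure X}
  [MulAction G1 X] [MeasurableConstSMul G1 X] [SMulInvariantMeasure G1 X μ] [IsProbabilityMeasure μ]
  [Group G] [Group Λ] [Countable Λ] {a : Cocy G1 X Λ} {E : Emb Λ G} {r s : ℕ} {A : Gp G r}
  {F : Subgroup G1}

/-- Means of the masses of the products with powers of `e`. -/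
theorem mean_succ (hco : ∀ J, HasCoc (A.reg J)) (h3 : Tendsto (fun g : G1 => μ {x | a.a g x ≠ 1}) (𝓝 1) (𝓝 0))
    (hp : ∀ F : Subgroup G1, DiscreteTopology F → Countable F ∧ ∃ p : X → Λ → F,
      (∀ (l : Λ) (s : Set F), MeasurableSet {x | p x l ∈ s}) ∧
        ∀ (f : F) (x : X) (l : Λ), p ((f : G1) • x) (a.a f x * l) = f * p x l)
    {j : ℕ} {b : ℕ → G1} (hb : Com μ a E A j b) {e u w : G1} (ha : ∀ n, b n * e = e * b n)
    (hu : ∀ n, b n * u = u * b n) (hw : ∀ n, b n * w = w * b n)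
    (hu1 : Tendsto (fun m : ℕ => (e ^ m)⁻¹ * u * e ^ m) atTop (𝓝 1))
    (hw1 : Tendsto (fun m : ℕ => e ^ m * w * (e ^ m)⁻¹) atTop (𝓝 1))
    (hd : DiscreteTopology (Subgroup.closure {u, w})) (hna : NonAm (Subgroup.closure {u, w})) (m : ℕ) :
    Tendsto (av fun k => ms μ a E (A.LG (j + 1) m)ᶜ (ltr (e ^ k) b)) atTop (𝓝 0) := by
  have hcomm : ∀ (k : ℕ) (n : ℕ), b n * e ^ k = e ^ k * b n := fun k n =>
    ((show Commute (b n) e from ha n).pow_right k).eq
  have h2 : Tendsto (av fun k => ∑ J : Finset (Fin r), mR μ a E (A.reg J) (A.WW J m) (ltr (e ^ k) b)) atTop (𝓝 0) := by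
    have e1 : Tendsto (fun K => ∑ J : Finset (Fin r),
        av (fun k => mR μ a E (A.reg J) (A.WW J m) (ltr (e ^ k) b)) K) atTop (𝓝 (∑ J : Finset (Fin r), (0 : ℝ))) :=
      tendsto_finsetSum _ fun J _ => esc_mean h3 hp (hco J) b ha hu hw hu1 hw1 hd hna m
    rw [Finset.sum_const_zero] at e1
    refine e1.congr fun K => ?_
    rw [av_sum']
  exact squeeze_zero (fun K => av_nonneg' (fun k => ms_nonneg _ _) K)
    (fun K => av_mono' fun k _ => succ_leG A (com_ltr A hb (hcomm k)) m) h2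

/-- In the mean almost all of the mass of `e i ^ k * b n` is where two gaps are large. -/
theorem mean_two (hco : ∀ J, HasCoc (A.reg J)) (D : DatN μ a F s) (i : Fin s) {b : ℕ → G1} (hbF : ∀ n, b n ∈ F)
    (hb : Tendsto b atTop (cocompact G1)) (m : ℕ) :
    Tendsto (av fun k => ms μ a E (A.LG 2 m)ᶜ (ltr (D.e i ^ k) b)) atTop (𝓝 0) :=
  mean_succ hco D.h3 D.hp (com_one A D.hF2 hb) (fun n => (D.cF i _ (hbF n)).1) (fun n => (D.cF i _ (hbF n)).2.1)
    (fun n => (D.cF i _ (hbF n)).2.2) (D.con i).1 (D.con i).2.1 (D.con i).2.2.1 (D.con i).2.2.2 m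

/-- The same for `e i * f` instead of `e i`, `f` in the centraliser of `u i`, `w i` and `e i`. -/
theorem mean_two' (hco : ∀ J, HasCoc (A.reg J)) (D : DatN μ a F s) (i : Fin s) {b : ℕ → G1} (hbF : ∀ n, b n ∈ F)
    (hb : Tendsto b atTop (cocompact G1)) {f : G1} (hf : f * D.e i = D.e i * f) (hf2 : f * D.u i = D.u i * f)
    (hf3 : f * D.w i = D.w i * f) (hfb : ∀ n, b n * f = f * b n) (m : ℕ) :
    Tendsto (av fun k => ms μ a E (A.LG 2 m)ᶜ (ltr ((D.e i * f) ^ k) b)) atTop (𝓝 0) := by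
  have key : ∀ (y : G1), f * y = y * f → ∀ m : ℕ,
      ((D.e i * f) ^ m)⁻¹ * y * (D.e i * f) ^ m = (D.e i ^ m)⁻¹ * y * D.e i ^ m ∧
      (D.e i * f) ^ m * y * ((D.e i * f) ^ m)⁻¹ = D.e i ^ m * y * (D.e i ^ m)⁻¹ := by
    intro y hy m
    have c1 : Commute (D.e i) f := hf.symm
    have c2 : Commute (f ^ m) y := (show Commute f y from hy).pow_left m
    have c3 : Commute (f ^ m) (D.e i ^ m) := (c1.symm.pow_left m).pow_right m
    rw [c1.mul_pow m]
    constructor
    · rw [mul_inv_rev]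
      have e1 : (f ^ m)⁻¹ * (D.e i ^ m)⁻¹ * y * (D.e i ^ m * f ^ m) =
        (f ^ m)⁻¹ * ((D.e i ^ m)⁻¹ * y * D.e i ^ m) * f ^ m := by group
      have c4 : Commute (f ^ m) ((D.e i ^ m)⁻¹ * y * D.e i ^ m) := ((c3.inv_right).mul_right c2).mul_right c3
      rw [e1, mul_assoc, ← c4.eq, ← mul_assoc, inv_mul_cancel, one_mul]
    · rw [mul_inv_rev]
      have e1 : D.e i ^ m * f ^ m * y * ((f ^ m)⁻¹ * (D.e i ^ m)⁻¹) =
        D.e i ^ m * (f ^ m * y * (f ^ m)⁻¹) * (D.e i ^ m)⁻¹ := by group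
      rw [e1, c2.eq, mul_assoc y, mul_inv_cancel, mul_one]
  obtain ⟨c1, c2, c3, c4⟩ := D.con i
  refine mean_succ hco D.h3 D.hp (com_one A D.hF2 hb) (e := D.e i * f) (fun n => ?_) (fun n => (D.cF i _ (hbF n)).2.1)
    (fun n => (D.cF i _ (hbF n)).2.2) (c1.congr fun k => (key _ hf2 k).1.symm)
    (c2.congr fun k => (key _ hf3 k).2.symm) c3 c4 m
  rw [← mul_assoc, (D.cF i _ (hbF n)).1, mul_assoc, hfb n, ← mul_assoc]

/-- Arbitrarily large `k` with a small value. -/
theorem exists_small' {f : ℕ → ℝ} (h0 : ∀ k, 0 ≤ f k) (hf : Tendsto (av f) atTop (𝓝 0)) {ε : ℝ} (hε : 0 < ε) (K0 : ℕ) :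
    ∃ k, K0 ≤ k ∧ f k ≤ ε := by
  by_contra hcon
  push Not at hcon
  have h1 : ∀ᶠ K in atTop, av f K < ε / 2 := hf.eventually (gt_mem_nhds (by linarith))
  obtain ⟨K, hK, hK1⟩ := (h1.and (eventually_ge_atTop (2 * K0 + 1))).exists
  have hKp : (0 : ℝ) < K := by
    have : 0 < K := by omega
    exact_mod_cast this
  unfold av at hK
  rw [div_lt_iff₀ hKp] at hK
  have h2 : (∑ _k ∈ Finset.Ico K0 K, ε) ≤ ∑ k ∈ Finset.range K, f k := by
    calc (∑ _k ∈ Finset.Ico K0 K, ε) ≤ ∑ k ∈ Finset.Ico K0 K, f k :=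
          Finset.sum_le_sum fun k hk => (hcon k (Finset.mem_Ico.1 hk).1).le
      _ ≤ ∑ k ∈ Finset.range K, f k :=
          Finset.sum_le_sum_of_subset_of_nonneg (fun k hk => by
            rw [Finset.mem_range]
            exact (Finset.mem_Ico.1 hk).2) fun k _ _ => h0 k
  rw [Finset.sum_const, Nat.card_Ico, nsmul_eq_mul] at h2
  have h3 : (K : ℝ) / 2 ≤ ((K - K0 : ℕ) : ℝ) := by
    rw [div_le_iff₀ (by norm_num : (0 : ℝ) < 2)]
    have h4 : K ≤ (K - K0) * 2 := by omega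
    exact_mod_cast h4
  nlinarith

/-- A sequence of powers of `e` such that the products have almost all of their mass where two gaps are large. -/
theorem exists_tauG {e : G1} {j : ℕ} {b : ℕ → G1}
    (h : ∀ m, Tendsto (av fun k => ms μ a E (A.LG j m)ᶜ (ltr (e ^ k) b)) atTop (𝓝 0)) :
    ∃ τ : ℕ → ℕ, StrictMono τ ∧ ∀ n : ℕ, ms μ a E (A.LG j n)ᶜ (ltr (e ^ τ n) b) ≤ 1 / ((n : ℝ) + 1) := by
  have key : ∀ n K0 : ℕ, ∃ k, K0 ≤ k ∧ ms μ a E (A.LG j n)ᶜ (ltr (e ^ k) b) ≤ 1 / ((n : ℝ) + 1) := fun n K0 =>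
    exists_small' (fun _ => ms_nonneg _ _) (h n) (by positivity) K0
  choose k hk1 hk2 using key
  let τ : ℕ → ℕ := fun n => Nat.rec (k 0 0) (fun n t => k (n + 1) (t + 1)) n
  have h0 : τ 0 = k 0 0 := rfl
  have h1 : ∀ n, τ (n + 1) = k (n + 1) (τ n + 1) := fun n => rfl
  refine ⟨τ, strictMono_nat_of_lt_succ fun n => ?_, fun n => ?_⟩
  · rw [h1]
    exact hk1 _ _
  · rcases n with _ | n
    · rw [h0]
      exact hk2 0 0
    · rw [h1]
      exact hk2 _ _

/-- The uniform form: outside of a compact set one of finitely many means is small. -/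
theorem mean_unif [(cocompact G1).IsCountablyGenerated] (hco : ∀ J, HasCoc (A.reg J)) (D : DatN μ a F s) (i : Fin s)
    (m : ℕ) {ε : ℝ} (hε : 0 < ε) : ∃ K0 : ℕ, ∀ᶠ f in cocompact G1, f ∈ F → ∃ K, 1 ≤ K ∧ K ≤ K0 ∧
      av (fun k => ‖cl μ (ind ℂ (A.LG 2 m)ᶜ) (zx μ a E (D.e i ^ k * f))‖ ^ 2) K ≤ ε := by
  by_contra hcon
  push Not at hcon
  obtain ⟨U, hU⟩ := (cocompact G1).exists_antitone_basis
  have h1 : ∀ n : ℕ, ∃ f ∈ U n, f ∈ F ∧ ∀ K, 1 ≤ K → K ≤ n →
      ε < av (fun k => ‖cl μ (ind ℂ (A.LG 2 m)ᶜ) (zx μ a E (D.e i ^ k * f))‖ ^ 2) K := by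
    intro n
    obtain ⟨f, hf, hfU⟩ := ((hcon n).and_eventually (hU.mem n)).exists
    exact ⟨f, hfU, hf.1, hf.2⟩
  choose b hbU hbF hb using h1
  have hbt : Tendsto b atTop (cocompact G1) := hU.tendsto hbU
  have h2 := mean_two (E := E) hco D i hbF hbt m
  have h3 : ∀ K : ℕ, 1 ≤ K → ε ≤ av (fun k => ms μ a E (A.LG 2 m)ᶜ (ltr (D.e i ^ k) b)) K := by
    intro K hK
    have e1 : Tendsto (fun n => av (fun k => ‖cl μ (ind ℂ (A.LG 2 m)ᶜ) (zx μ a E (ltr (D.e i ^ k) b n))‖ ^ 2) K)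
        (hyperfilter ℕ : Filter ℕ) (𝓝 (av (fun k => ms μ a E (A.LG 2 m)ᶜ (ltr (D.e i ^ k) b)) K)) := by
      unfold av
      exact (tendsto_finsetSum _ fun k _ => ms_tendsto _ (ltr (D.e i ^ k) b)).div_const _
    refine ge_of_tendsto e1 ?_
    refine Eventually.filter_mono Nat.hyperfilter_le_atTop ?_
    filter_upwards [eventually_ge_atTop K] with n hn
    exact (hb n K hK hn).le
  have h4 : ε ≤ 0 := ge_of_tendsto h2 (by
    filter_upwards [eventually_ge_atTop 1] with K hK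
    exact h3 K hK)
  linarith

end Main

end Pool.Agent.Helper43.FQ
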