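import Pool.Agent.Helper43.TA.Defs

/-!
`DatN μ a F s`: the data `Dat μ a F s` without the Mautner clause `mt` (which fails for the nodes whose
complement is not connected).
-/

set_option autoImplicit false
set_option linter.unusedSectionVars false

open MeasureTheory Filter Topology

namespace Pool.Agent.Helper43.FQ

open Pool.Agent.Helper84.NI Pool.Agent.Helper84.GVN Pool.Agent.Helper90.RK
open Pool.Agent.Helper84.GN hiding toReg
open Pool.Agent.Helper96.RK Pool.Agent.Helper66.FR Pool.Agent.Helper84.FR Pool.Agent.Helper96.FR Pool.Agent.Helper55.FR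
open Pool.Agent.Helper43.TA

/-- `r` commuting elements in the centraliser of `F` with contracted nonamenable groups. -/
def TwoN {G1 : Type} [Group G1] [TopologicalSpace G1] (r : ℕ) (F : Subgroup G1) : Prop :=
  ∃ a u w : Fin r → G1, (∀ i, ∀ f ∈ F, f * a i = a i * f ∧ f * u i = u i * f ∧ f * w i = w i * f) ∧
    (∀ i j, a i * a j = a j * a i) ∧ (∀ i j, i ≠ j → a i * u j = u j * a i ∧ a i * w j = w j * a i) ∧
    (∀ i, Tendsto (fun m : ℕ => (a i ^ m)⁻¹ * u i * a i ^ m) atTop (𝓝 1) ∧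
      Tendsto (fun m : ℕ => a i ^ m * w i * (a i ^ m)⁻¹) atTop (𝓝 1) ∧
      DiscreteTopology (Subgroup.closure {u i, w i}) ∧ NonAm (Subgroup.closure {u i, w i}))

/-- The cocycle properties and `r` commuting elements in the centraliser of `F`. -/
structure DatN {G1 X Λ : Type} [Group G1] [TopologicalSpace G1] [MeasurableSpace X] (μ : Measure X) [MulAction G1 X] [Group Λ]
    (a : Cocy G1 X Λ) (F : Subgroup G1) (r : ℕ) where
  h3 : Tendsto (fun g : G1 => μ {x | a.a g x ≠ 1}) (𝓝 1) (𝓝 0)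
  hF2 : ∀ l : Λ, Tendsto (fun g : G1 => μ {x | a.a g x = l}) (cocompact G1) (𝓝 0)
  hp : ∀ F' : Subgroup G1, DiscreteTopology F' → Countable F' ∧ ∃ p : X → Λ → F',
    (∀ (l : Λ) (s : Set F'), MeasurableSet {x | p x l ∈ s}) ∧
      ∀ (f : F') (x : X) (l : Λ), p ((f : G1) • x) (a.a f x * l) = f * p x l
  /-- the commuting elements -/
  e : Fin r → G1
  /-- contracted elements -/
  u : Fin r → G1
  /-- expanded elements -/
  w : Fin r → G1
  cF : ∀ i, ∀ f ∈ F, f * e i = e i * f ∧ f * u i = u i * f ∧ f * w i = w i * f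
  cc : ∀ i j, e i * e j = e j * e i
  cu : ∀ i j, i ≠ j → e i * u j = u j * e i ∧ e i * w j = w j * e i
  con : ∀ i, Tendsto (fun m : ℕ => (e i ^ m)⁻¹ * u i * e i ^ m) atTop (𝓝 1) ∧
    Tendsto (fun m : ℕ => e i ^ m * w i * (e i ^ m)⁻¹) atTop (𝓝 1) ∧
    DiscreteTopology (Subgroup.closure {u i, w i}) ∧ NonAm (Subgroup.closure {u i, w i})

/-- Forget the last field. -/
def Dat.toN {G1 X Λ : Type} [Group G1] [TopologicalSpace G1] [MeasurableSpace X] {μ : Measure X} [MulAction G1 X] [Group Λ]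
    {a : Cocy G1 X Λ} {F : Subgroup G1} {r : ℕ} (D : Dat μ a F r) : DatN μ a F r where
  h3 := D.h3
  hF2 := D.hF2
  hp := D.hp
  e := D.e
  u := D.u
  w := D.w
  cF := D.cF
  cc := D.cc
  cu := D.cu
  con := D.con

/-- The data from `TwoN`. -/
theorem exists_datN {G1 X Λ : Type} [Group G1] [TopologicalSpace G1] [MeasurableSpace X] {μ : Measure X} [MulAction G1 X]
    [Group Λ] {a : Cocy G1 X Λ} {F : Subgroup G1} {r : ℕ}
    (h3 : Tendsto (fun g : G1 => μ {x | a.a g x ≠ 1}) (𝓝 1) (𝓝 0))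
    (hF2 : ∀ l : Λ, Tendsto (fun g : G1 => μ {x | a.a g x = l}) (cocompact G1) (𝓝 0))
    (hp : ∀ F' : Subgroup G1, DiscreteTopology F' → Countable F' ∧ ∃ p : X → Λ → F',
      (∀ (l : Λ) (s : Set F'), MeasurableSet {x | p x l ∈ s}) ∧
        ∀ (f : F') (x : X) (l : Λ), p ((f : G1) • x) (a.a f x * l) = f * p x l)
    (hT : TwoN r F) : Nonempty (DatN μ a F r) := by
  obtain ⟨e, u, w, cF, cc, cu, con⟩ := hT
  exact ⟨⟨h3, hF2, hp, e, u, w, cF, cc, cu, con⟩⟩

end Pool.Agent.Helper43.FQ
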