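import Pool.Agent.Helper43.FQ.Sum
import Pool.Agent.Helper43.FQ.Dat
import Pool.Agent.Helper43.TA.Esc
import Pool.Agent.Helper43.TA.Lim
import Pool.Agent.Helper55.FR.Start

/-!
# Project FQ (MP_0f6f3f_an, full question), layer TIGHT: types

`A.LG j R`: at least `j` gaps are larger than `R`. `DatN μ a F s`: the cocycle properties and `s` commuting elements with contracted nonamenable groups in the centraliser of `F` (`Helper43/TA/Defs.lean`).
`card_ge`: if a sequence of elements of `F` has a component over the stratum `A.reg J` then `s ≤ J.card`. `no_more`: for `r < s + j` no element of `F` has much mass where `j` gaps are large.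
For `s + 1 = r`: `type_one`: only the one gap strata `A.reg (univ.erase j)` occur for the sequences of `F` which leave the compact sets; `vec_one`: `vec b` is the sum of its components over them, `mass_one`.
-/

set_option autoImplicit false
set_option linter.unusedSectionVars false

open MeasureTheory Filter Topology

namespace Pool.Agent.Helper43.FQ

open Pool.Agent.Helper84.NI Pool.Agent.Helper84.GVN Pool.Agent.Helper90.RK
open Pool.Agent.Helper84.GN hiding toReg
open Pool.Agent.Helper96.RK Pool.Agent.Helper66.FR Pool.Agent.Helper84.FR Pool.Agent.Helper96.FR Pool.Agent.Helper55.FR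
open Pool.Agent.Helper43.TA

section Sel

variable {X : Type} [MeasurableSpace X] {μ : Measure X} [IsProbabilityMeasure μ] {G : Type} [Group G] {r : ℕ} (A : Gp G r)

/-- Selection of a type. -/
theorem selectG (J0 : Finset (Fin r)) (KK : Finset (Finset (Fin r))) {I : Type} (z : I → XL μ (L2 G))
    (hz : ∀ i, ∀ᵐ y ∂μ, ‖z i y‖ ≤ 1) {β : ℝ} (hβ : 0 < β) (v : ℕ → I)
    (h : ∀ m : ℕ, β ≤ ‖cl μ (ind ℂ (A.BB J0 m \ {γ | ∃ K ∈ KK, γ ∈ A.WW K m})) (z (v m))‖) :
    ∃ J : Finset (Fin r), J ⊆ J0 ∧ (∀ K ∈ KK, ¬ K ⊆ J) ∧ HasComp (A.reg J) z hz v := by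
  classical
  let B : ℕ → Set G := fun m => A.BB J0 m \ {γ | ∃ K ∈ KK, γ ∈ A.WW K m}
  have hB : ∀ m, B m = A.BB J0 m \ {γ | ∃ K ∈ KK, γ ∈ A.WW K m} := fun m => rfl
  let f : ℕ → XL μ (L2 G) := fun m => z (v m)
  have hf : ∀ m, ∀ᵐ y ∂μ, ‖f m y‖ ≤ 1 := fun m => hz (v m)
  set ξ : UE μ (L2 G) := tru B f hf with hξ
  have hξ0 : 0 < ‖ξ‖ := lt_of_lt_of_le hβ (le_norm_tru fun m => h m)
  -- the maximal set
  let 𝒮 : Finset (Finset (Fin r)) :=
    Finset.univ.filter fun J => J ⊆ J0 ∧ ∃ n, UE.map μ (ind ℂ (A.WW J n)) ξ ≠ 0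
  have h𝒮 : ∀ J, J ∈ 𝒮 ↔ J ⊆ J0 ∧ ∃ n, UE.map μ (ind ℂ (A.WW J n)) ξ ≠ 0 := by
    intro J
    simp [𝒮]
  have hne : 𝒮.Nonempty := by
    refine ⟨∅, (h𝒮 _).2 ⟨Finset.empty_subset _, 0, ?_⟩⟩
    have h1 : A.WW (∅ : Finset (Fin r)) 0 = Set.univ := by
      ext γ
      simp [Gp.WW]
    rw [h1, C_univ]
    exact norm_pos_iff.1 hξ0
  obtain ⟨J, hJ, hmax⟩ := Finset.exists_max_image 𝒮 Finset.card hne
  obtain ⟨hJc, n, hn⟩ := (h𝒮 J).1 hJ
  have hnull : ∀ j, j ∈ J0 → j ∉ J → ∀ n', UE.map μ (ind ℂ (A.WW (insert j J) n')) ξ = 0 := by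
    intro j hj hjJ n'
    by_contra hcon
    have h1 : insert j J ∈ 𝒮 := (h𝒮 _).2 ⟨Finset.insert_subset hj hJc, n', hcon⟩
    have h2 := hmax _ h1
    rw [Finset.card_insert_of_notMem hjJ] at h2
    omega
  have hBB : ∀ m0, UE.map μ (ind ℂ (A.BB J0 m0)ᶜ) ξ = 0 := by
    intro m0
    rw [hξ, Helper55.FR.ind_tru, Helper55.FR.tru_congr f hf m0 (B := fun _ => ∅), Helper55.FR.tru_empty]
    intro m hm
    rw [hB]
    ext γ
    simp only [Set.mem_inter_iff, Set.mem_sdiff, Set.mem_empty_iff_false, iff_false, Set.mem_compl_iff]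
    rintro ⟨h1, h2, _⟩
    exact h1 (A.BB_anti J0 hm h2)
  have hK : ∀ K ∈ KK, ¬ K ⊆ J := by
    intro K hK hKJ
    refine hn ?_
    rw [hξ, Helper55.FR.ind_tru, Helper55.FR.tru_congr f hf n (B := fun _ => ∅), Helper55.FR.tru_empty]
    intro m hm
    rw [hB]
    ext γ
    simp only [Set.mem_inter_iff, Set.mem_sdiff, Set.mem_empty_iff_false, iff_false, not_and, not_not]
    intro h1 _
    exact ⟨K, hK, A.WW_mono _ hm fun i hi => h1 i (hKJ hi)⟩
  refine ⟨J, hJc, hK, ?_⟩
  set ξ' : UE μ (L2 G) := UE.map μ (ind ℂ (A.WW J n)) ξ with hξ'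
  refine ⟨ξ', ⟨n, fun s hs => ?_⟩, ?_⟩
  · obtain ⟨m0, hm0⟩ := A.mem_FF.1 (show s ∈ A.FF J n from hs)
    refine carried hξ' ?_
    have hsub : A.WW J n \ s ⊆ (A.BB J0 m0)ᶜ ∪ ⋃ j ∈ J0 \ J, A.WW (insert j J) (max n m0) := by
      rintro γ ⟨h1, h2⟩
      by_cases h3 : γ ∈ A.BB J0 m0
      · right
        have h4 : γ ∉ A.BB J m0 := fun h4 => h2 (hm0 ⟨h1, h4⟩)
        have h5 : ∃ j, j ∉ J ∧ A.gap γ j < m0 := by
          by_contra hcon
          push Not at hcon
          exact h4 hcon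
        obtain ⟨j, hj, hlt⟩ := h5
        have hjc : j ∈ J0 := by
          by_contra hjc
          exact absurd hlt (not_lt.2 (h3 j hjc))
        refine Set.mem_iUnion₂.2 ⟨j, Finset.mem_sdiff.2 ⟨hjc, hj⟩, ?_⟩
        intro i hi
        rcases Finset.mem_insert.1 hi with rfl | hi
        · refine hlt.le.trans ?_
          exact_mod_cast le_max_right n m0
        · refine (h1 i hi).trans ?_
          exact_mod_cast le_max_left n m0
      · exact Or.inl h3
    refine null_mono hsub (null_union (hBB m0) (null_iUnion _ _ fun j hj => ?_))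
    rw [Finset.mem_sdiff] at hj
    exact hnull j hj.1 hj.2 _
  · have h1 : ξ' = tru (fun m => A.WW J n ∩ B m) f hf := by
      rw [hξ', hξ, Helper55.FR.ind_tru]
    have h3 := inner_tru (fun m => A.WW J n ∩ B m) f hf
    rw [← h1] at h3
    have h2 : (cls (fun n => z (v n)) fun n => hz (v n) : UE μ (L2 G)) = cls f hf := rfl
    rw [h2, h3]
    have h4 : ‖ξ'‖ ≠ 0 := norm_ne_zero_iff.2 hn
    exact_mod_cast pow_ne_zero 2 h4

/-- Every escape step removes an element from the type. -/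
theorem card_boundG {I : Type} (z : I → XL μ (L2 G)) (hz : ∀ i, ∀ᵐ y ∂μ, ‖z i y‖ ≤ 1)
    (V : ℕ → Set I) (s : ℕ) (J0 : Finset (Fin r)) (b0 : ℕ → I) (hb0 : ∀ n, b0 n ∈ V 0)
    (h0 : HasComp (A.reg J0) z hz b0)
    (hesc : ∀ k, k < s → ∀ (J : Finset (Fin r)) (b : ℕ → I),
      (∀ n, b n ∈ V k) → HasComp (A.reg J) z hz b → ∃ β : ℝ, 0 < β ∧ ∀ m : ℕ, ∃ g ∈ V (k + 1),
        β ≤ ‖cl μ (ind ℂ (A.BB J m \ A.WW J m)) (z g)‖) : s ≤ J0.card := by
  have key : ∀ k : ℕ, k ≤ s → ∃ (J : Finset (Fin r)) (b : ℕ → I),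
      (∀ n, b n ∈ V k) ∧ HasComp (A.reg J) z hz b ∧ J.card + k ≤ J0.card := by
    intro k
    induction k with
    | zero => intro _; exact ⟨J0, b0, hb0, h0, le_rfl⟩
    | succ k ih =>
      intro hk
      obtain ⟨J, b, hb, hc, hcard⟩ := ih (by omega)
      obtain ⟨β, hβ, h⟩ := hesc k (by omega) J b hb hc
      choose v hv hvβ using h
      obtain ⟨J', hJ', hK, hc'⟩ := selectG A J {J} z hz hβ v (fun m => by
        have h1 : {γ | ∃ K ∈ ({J} : Finset (Finset (Fin r))), γ ∈ A.WW K m} = A.WW J m := by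
          ext γ
          simp
        rw [h1]
        exact hvβ m)
      have hlt : J'.card < J.card := by
        refine Finset.card_lt_card ⟨hJ', ?_⟩
        exact hK J (Finset.mem_singleton_self _)
      exact ⟨J', v, hv, hc', by omega⟩
  obtain ⟨J, _, _, _, h⟩ := key s le_rfl
  omega

end Sel

namespace Gp

variable {G : Type} [Group G] {r : ℕ} (A : Gp G r)

/-- At least `j` gaps are larger than `R`. -/
def LG (j R : ℕ) : Set G := {γ | ∃ T : Finset (Fin r), T.card = j ∧ ∀ i ∈ T, (R : ℝ) < A.gap γ i}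

theorem LG_anti (j : ℕ) {R R' : ℕ} (h : R ≤ R') : A.LG j R' ⊆ A.LG j R := by
  rintro γ ⟨T, hT, h1⟩
  exact ⟨T, hT, fun i hi => lt_of_le_of_lt (by exact_mod_cast h) (h1 i hi)⟩

theorem LG_mono {j j' : ℕ} (h : j ≤ j') (R : ℕ) : A.LG j' R ⊆ A.LG j R := by
  rintro γ ⟨T, hT, h1⟩
  obtain ⟨T', hT', hc⟩ := Finset.exists_subset_card_eq (h.trans hT.ge)
  exact ⟨T', hc, fun i hi => h1 i (hT' hi)⟩

theorem BB_sub_LG {J : Finset (Fin r)} {j : ℕ} (h : J.card + j ≤ r) (R : ℕ) : A.BB J (R + 1) ⊆ A.LG j R := by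
  classical
  intro γ hγ
  have h1 : j ≤ (Finset.univ \ J).card := by
    rw [Finset.card_sdiff_of_subset (Finset.subset_univ _), Finset.card_univ, Fintype.card_fin]
    omega
  obtain ⟨T, hT, hc⟩ := Finset.exists_subset_card_eq h1
  refine ⟨T, hc, fun i hi => ?_⟩
  have h2 := hγ i (Finset.mem_sdiff.1 (hT hi)).2
  push_cast at h2
  linarith

theorem LG_eq {j : ℕ} (h1 : 1 ≤ j) (hr : j ≤ r) (m : ℕ) :
    A.LG j m = A.BB Finset.univ m \ {γ | ∃ K ∈ Finset.powersetCard (r - j + 1) (Finset.univ : Finset (Fin r)), γ ∈ A.WW K m} := by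
  classical
  ext γ
  constructor
  · rintro ⟨T, hT, h⟩
    refine ⟨fun i hi => absurd (Finset.mem_univ i) hi, ?_⟩
    rintro ⟨K, hK, hγ⟩
    rw [Finset.mem_powersetCard] at hK
    have hdis : Disjoint T K := by
      rw [Finset.disjoint_left]
      intro i hi hiK
      exact absurd (hγ i hiK) (not_le.2 (h i hi))
    have h2 := Finset.card_le_univ (T ∪ K)
    rw [Finset.card_union_of_disjoint hdis, hT, hK.2, Fintype.card_fin] at h2
    omega
  · rintro ⟨-, h⟩
    set T := Finset.univ.filter fun i => (m : ℝ) < A.gap γ i with hT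
    have hc : j ≤ T.card := by
      by_contra hcon
      push Not at hcon
      refine h ?_
      have h2 : r - j + 1 ≤ (Finset.univ \ T).card := by
        rw [Finset.card_sdiff_of_subset (Finset.subset_univ _), Finset.card_univ, Fintype.card_fin]
        omega
      obtain ⟨K, hK, hKc⟩ := Finset.exists_subset_card_eq h2
      refine ⟨K, Finset.mem_powersetCard.2 ⟨Finset.subset_univ _, hKc⟩, fun i hi => ?_⟩
      by_contra hlt
      exact (Finset.mem_sdiff.1 (hK hi)).2 (Finset.mem_filter.2 ⟨Finset.mem_univ _, not_le.1 hlt⟩)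
    obtain ⟨T', hT', hc'⟩ := Finset.exists_subset_card_eq hc
    exact ⟨T', hc', fun i hi => (Finset.mem_filter.1 (hT' hi)).2⟩

end Gp

section Main

variable {G1 X G Λ : Type} [Group G1] [TopologicalSpace G1] [IsTopologicalGroup G1] [MeasurableSpace X] {μ : Measure X}
  [MulAction G1 X] [MeasurableConstSMul G1 X] [SMulInvariantMeasure G1 X μ] [IsProbabilityMeasure μ]
  [Group G] [Group Λ] [Countable Λ] {a : Cocy G1 X Λ} {E : Emb Λ G} {r s : ℕ} {A : Gp G r}
  {F : Subgroup G1}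

theorem esc_lvlG (hco : ∀ J, HasCoc (A.reg J)) (D : DatN μ a F s) (i : Fin s) (b : ℕ → G1)
    (hb : ∀ n, b n * D.e i = D.e i * b n ∧ b n * D.u i = D.u i * b n ∧ b n * D.w i = D.w i * b n)
    (J : Finset (Fin r)) (hne : HasComp (A.reg J) (zx μ a E) zx_bound b) :
    ∃ β : ℝ, 0 < β ∧ ∀ m : ℕ, ∃ (n : ℕ) (k : ℤ),
      β ≤ ‖cl μ (ind ℂ (A.BB J m \ A.WW J m)) (zx μ a E (D.e i ^ k * b n))‖ := by
  have hE : Esc (zx μ a E) zx_bound := Pool.Agent.Helper84.FR.esc a E D.h3 D.hp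
  obtain ⟨β, hβ, h⟩ := hE (A.reg J) (hco J) b hne (D.e i) (D.u i) (D.w i)
    (fun n => (hb n).1) (fun n => (hb n).2.1) (fun n => (hb n).2.2) (D.con i).1 (D.con i).2.1 (D.con i).2.2.1 (D.con i).2.2.2
  exact ⟨β, hβ, fun m => h (A.BB J m) (fun n => A.BB_mem_FF J m n) m⟩

private theorem zcommG {G1 : Type} [Group G1] {a b x : G1} (q : ℤ) (ha : a * x = x * a) (hb : b * x = x * b) :
    a ^ q * b * x = x * (a ^ q * b) := by
  have h1 : Commute (a ^ q) x := (show Commute a x from ha).zpow_left q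
  have h2 : Commute b x := hb
  exact (h1.mul_left h2)

/-- The types of the sequences of `F` have at least `s` bounded gaps. -/
theorem card_ge (hco : ∀ J, HasCoc (A.reg J)) (D : DatN μ a F s) {b : ℕ → G1} (hbF : ∀ n, b n ∈ F)
    {J : Finset (Fin r)} (hne : HasComp (A.reg J) (zx μ a E) zx_bound b) : s ≤ J.card := by
  refine card_boundG A (zx μ a E) zx_bound
    (fun k => {g : G1 | ∀ i : Fin s, k ≤ (i : ℕ) → g * D.e i = D.e i * g ∧ g * D.u i = D.u i * g ∧ g * D.w i = D.w i * g})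
    s J b (fun n i _ => D.cF i (b n) (hbF n)) hne ?_
  intro k hk J' b hb hc
  obtain ⟨β', hβ', h⟩ := esc_lvlG hco D ⟨k, hk⟩ b (fun n => hb n ⟨k, hk⟩ le_rfl) J' hc
  refine ⟨β', hβ', fun m => ?_⟩
  obtain ⟨n, q, hnq⟩ := h m
  refine ⟨_, ?_, hnq⟩
  intro i hi
  have hi' : k + 1 ≤ (i : ℕ) := hi
  have hne : (⟨k, hk⟩ : Fin s) ≠ i := by
    intro h0
    have := congrArg Fin.val h0
    simp only at this
    omega
  obtain ⟨b1, b2, b3⟩ := hb n i (by omega)
  obtain ⟨c1, c2⟩ := D.cu ⟨k, hk⟩ i hne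
  exact ⟨zcommG q (D.cc _ _) b1, zcommG q c1 b2, zcommG q c2 b3⟩

/-- No element of `F` has much mass where `j` gaps are large, `r < s + j`. -/
theorem no_more (hco : ∀ J, HasCoc (A.reg J)) (D : DatN μ a F s) {j : ℕ} (hj : 1 ≤ j) (hr : r < s + j) {β : ℝ}
    (hβ : 0 < β) : ∃ R : ℕ, ∀ f ∈ F, ‖cl μ (ind ℂ (A.LG j R)) (zx μ a E f)‖ < β := by
  classical
  rcases Nat.lt_or_ge r j with hjr | hjr
  · refine ⟨0, fun f _ => ?_⟩
    have h1 : A.LG j 0 = ∅ := by
      ext γ
      simp only [Set.mem_empty_iff_false, iff_false]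
      rintro ⟨T, hT, -⟩
      have h2 := Finset.card_le_univ T
      rw [Fintype.card_fin] at h2
      omega
    rw [h1, ind_empty3, cl_zero, _root_.zero_apply, norm_zero]
    exact hβ
  · by_contra hcon
    push Not at hcon
    choose f hfF hf using hcon
    obtain ⟨J, -, hJ, hcomp⟩ := selectG A Finset.univ (Finset.powersetCard (r - j + 1) (Finset.univ : Finset (Fin r)))
      (zx μ a E) zx_bound hβ f (fun m => by
        rw [← A.LG_eq hj hjr m]
        exact hf m)
    have h1 := card_ge hco D hfF hcomp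
    have h2 : ¬ r - j + 1 ≤ J.card := by
      intro h3
      obtain ⟨K, hK, hKc⟩ := Finset.exists_subset_card_eq h3
      exact hJ K (Finset.mem_powersetCard.2 ⟨Finset.subset_univ _, hKc⟩) hK
    omega

/-- The mass on finite sets tends to zero. -/
theorem fin_tendsto (hF2 : ∀ l : Λ, Tendsto (fun g : G1 => μ {x | a.a g x = l}) (cocompact G1) (𝓝 0))
    {b : ℕ → G1} (hb : Tendsto b atTop (cocompact G1)) (S : Finset G) :
    Tendsto (fun n => ‖cl μ (ind ℂ (S : Set G)) (zx μ a E (b n))‖ ^ 2) atTop (𝓝 0) := by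
  have hc : ∀ (g : G1) (l : Λ), MeasurableSet (a.a g ⁻¹' {l}) := fun g l => a.meas g l
  exact tendsto_mass (μ := μ) E (f := fun m : ℕ => zx μ a E (b m))
    (c := fun m x => a.a (b m) ((b m)⁻¹ • x))
    (fun m l => (measurable_const_smul (b m)⁻¹) (hc _ l))
    (fun m => zv_apply (mea_a (b m) (b m)⁻¹)) (fun l => by
      have h2 := (ENNReal.tendsto_toReal ENNReal.zero_ne_top).comp ((hF2 l).comp hb)
      rw [ENNReal.toReal_zero] at h2
      refine h2.congr fun m => ?_
      have h3 := (measurePreserving_smul (b m)⁻¹ μ).measure_preimage (hc (b m) l).nullMeasurableSet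
      change (μ (a.a (b m) ⁻¹' {l})).toReal =
        (μ ((fun x => (b m)⁻¹ • x) ⁻¹' (a.a (b m) ⁻¹' {l}))).toReal
      rw [h3]) S

theorem mR_univ' (R : Reg G) (b : ℕ → G1) : mR μ a E R Set.univ b = ‖XPpr R (vec μ a E b)‖ ^ 2 := by
  unfold mR
  rw [C_univ]
  rfl

/-- Sequences which leave the compact sets have no component where all gaps are bounded. -/
theorem comp_univ (hF2 : ∀ l : Λ, Tendsto (fun g : G1 => μ {x | a.a g x = l}) (cocompact G1) (𝓝 0))
    {b : ℕ → G1} (hb : Tendsto b atTop (cocompact G1)) : XPpr (A.reg Finset.univ) (vec μ a E b) = 0 := by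
  have key : ∀ n : ℕ, UE.map μ (ind ℂ (A.WW Finset.univ n)) (vec μ a E b) = 0 := by
    intro n
    have hfin : {γ | ∀ l, A.gap γ l ≤ n}.Finite := A.gfin n
    have h1 := fin_tendsto (E := E) hF2 hb hfin.toFinset
    have h2 := ms_tendsto (μ := μ) (a := a) (E := E) ((hfin.toFinset : Finset G) : Set G) b
    have h3 : ms μ a E ((hfin.toFinset : Finset G) : Set G) b = 0 :=
      tendsto_nhds_unique h2 (h1.mono_left Nat.hyperfilter_le_atTop)
    have h4 : A.WW Finset.univ n ⊆ ((hfin.toFinset : Finset G) : Set G) := by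
      rw [hfin.coe_toFinset]
      exact fun γ hγ l => hγ l (Finset.mem_univ _)
    have h5 := ms_mono (μ := μ) (a := a) (E := E) h4 b
    rw [h3] at h5
    have h6 : ‖UE.map μ (ind ℂ (A.WW Finset.univ n)) (vec μ a E b)‖ ^ 2 = 0 := le_antisymm h5 (sq_nonneg _)
    exact norm_eq_zero.1 (pow_eq_zero_iff (two_ne_zero) |>.1 h6)
  have h1 : XUa μ (A.reg Finset.univ) ≤ (ℂ ∙ vec μ a E b)ᗮ := by
    refine Submodule.topologicalClosure_minimal _ ?_ (Submodule.isClosed_orthogonal _)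
    rw [Submodule.span_le]
    rintro ξ ⟨n, hξ⟩
    rw [SetLike.mem_coe, Submodule.mem_orthogonal_singleton_iff_inner_left]
    have h2 := hξ _ (A.WW_mem_FF Finset.univ n)
    rw [← h2, xinner_ind, key n, inner_zero_right]
  have h2 := h1 (XPpr (A.reg Finset.univ) (vec μ a E b)).2
  rw [Submodule.mem_orthogonal_singleton_iff_inner_left, inner_XPpr] at h2
  exact inner_self_eq_zero.1 h2

theorem comp_of_ne {J : Finset (Fin r)} {b : ℕ → G1} (h : XPpr (A.reg J) (vec μ a E b) ≠ 0) :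
    HasComp (A.reg J) (zx μ a E) zx_bound b := by
  rw [hasComp_iff, mR_univ']
  have := norm_pos_iff.2 h
  positivity

/-- The sum of the masses of the types is one. -/
theorem mass_all (b : ℕ → G1) : ∑ J : Finset (Fin r), ‖XPpr (A.reg J) (vec μ a E b)‖ ^ 2 = 1 := by
  rw [sum_sq, norm_vec, one_pow]

theorem vec_all (b : ℕ → G1) :
    ∑ J : Finset (Fin r), ((XPpr (A.reg J) (vec μ a E b) : XUa μ (A.reg J)) : UE μ (L2 G)) = vec μ a E b :=
  sum_proj A _

/-- The number of bounded gaps of a type: at least `s`, less than `r`. -/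
theorem type_card (hco : ∀ J, HasCoc (A.reg J)) (D : DatN μ a F s) {b : ℕ → G1} (hbF : ∀ n, b n ∈ F)
    (hb : Tendsto b atTop (cocompact G1)) {J : Finset (Fin r)} (h : XPpr (A.reg J) (vec μ a E b) ≠ 0) :
    s ≤ J.card ∧ J ≠ Finset.univ := by
  refine ⟨card_ge hco D hbF (comp_of_ne h), ?_⟩
  rintro rfl
  exact h (comp_univ D.hF2 hb)

theorem card_erase_iff (hs : s + 1 = r) {J : Finset (Fin r)} (h1 : s ≤ J.card) (h2 : J ≠ Finset.univ) :
    ∃ j, J = Finset.univ.erase j := by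
  classical
  obtain ⟨j, hj⟩ : ∃ j, j ∉ J := by
    by_contra hcon
    push Not at hcon
    exact h2 (Finset.eq_univ_of_forall hcon)
  refine ⟨j, Finset.eq_of_subset_of_card_le ?_ ?_⟩
  · intro i hi
    refine Finset.mem_erase.2 ⟨?_, Finset.mem_univ _⟩
    rintro rfl
    exact hj hi
  · rw [Finset.card_erase_of_mem (Finset.mem_univ _), Finset.card_univ, Fintype.card_fin]
    omega

/-- **TIGHT**: for `s + 1 = r` only the one gap strata occur. -/
theorem type_one (hco : ∀ J, HasCoc (A.reg J)) (hs : s + 1 = r) (D : DatN μ a F s) {b : ℕ → G1} (hbF : ∀ n, b n ∈ F)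
    (hb : Tendsto b atTop (cocompact G1)) {J : Finset (Fin r)} (h : XPpr (A.reg J) (vec μ a E b) ≠ 0) :
    ∃ j, J = Finset.univ.erase j := by
  obtain ⟨h1, h2⟩ := type_card hco D hbF hb h
  exact card_erase_iff hs h1 h2

theorem erase_inj {i j : Fin r} (h : (Finset.univ : Finset (Fin r)).erase i = Finset.univ.erase j) : i = j := by
  by_contra hne
  have h1 : i ∈ (Finset.univ : Finset (Fin r)).erase j := Finset.mem_erase.2 ⟨hne, Finset.mem_univ _⟩
  rw [← h] at h1
  exact (Finset.mem_erase.1 h1).1 rfl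

/-- The masses of the one gap strata. -/
theorem mass_one (hco : ∀ J, HasCoc (A.reg J)) (hs : s + 1 = r) (D : DatN μ a F s) {b : ℕ → G1} (hbF : ∀ n, b n ∈ F)
    (hb : Tendsto b atTop (cocompact G1)) :
    ∑ j : Fin r, ‖XPpr (A.reg (Finset.univ.erase j)) (vec μ a E b)‖ ^ 2 = 1 := by
  classical
  rw [← mass_all (μ := μ) (a := a) (E := E) (A := A) b]
  have h1 : ∑ j : Fin r, ‖XPpr (A.reg (Finset.univ.erase j)) (vec μ a E b)‖ ^ 2 =
      ∑ J ∈ Finset.univ.image (fun j : Fin r => (Finset.univ : Finset (Fin r)).erase j),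
        ‖XPpr (A.reg J) (vec μ a E b)‖ ^ 2 := by
    rw [Finset.sum_image fun i _ j _ h => erase_inj h]
  rw [h1]
  refine Finset.sum_subset (Finset.subset_univ _) fun J _ hJ => ?_
  by_contra hne
  have h2 : XPpr (A.reg J) (vec μ a E b) ≠ 0 := by
    intro h0
    rw [h0, norm_zero] at hne
    exact hne (by norm_num)
  obtain ⟨j, rfl⟩ := type_one hco hs D hbF hb h2
  exact hJ (Finset.mem_image_of_mem _ (Finset.mem_univ j))

/-- `vec b` is the sum of its components over the one gap strata. -/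
theorem vec_one (hco : ∀ J, HasCoc (A.reg J)) (hs : s + 1 = r) (D : DatN μ a F s) {b : ℕ → G1} (hbF : ∀ n, b n ∈ F)
    (hb : Tendsto b atTop (cocompact G1)) :
    ∑ j : Fin r, ((XPpr (A.reg (Finset.univ.erase j)) (vec μ a E b) :
      XUa μ (A.reg (Finset.univ.erase j))) : UE μ (L2 G)) = vec μ a E b := by
  classical
  conv_rhs => rw [← vec_all (μ := μ) (a := a) (E := E) (A := A) b]
  have h1 : ∑ j : Fin r, ((XPpr (A.reg (Finset.univ.erase j)) (vec μ a E b) :
      XUa μ (A.reg (Finset.univ.erase j))) : UE μ (L2 G)) =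
      ∑ J ∈ Finset.univ.image (fun j : Fin r => (Finset.univ : Finset (Fin r)).erase j),
        ((XPpr (A.reg J) (vec μ a E b) : XUa μ (A.reg J)) : UE μ (L2 G)) := by
    rw [Finset.sum_image fun i _ j _ h => erase_inj h]
  rw [h1]
  refine Finset.sum_subset (Finset.subset_univ _) fun J _ hJ => ?_
  by_contra hne
  have h2 : XPpr (A.reg J) (vec μ a E b) ≠ 0 := by
    intro h0
    rw [h0] at hne
    exact hne rfl
  obtain ⟨j, rfl⟩ := type_one hco hs D hbF hb h2
  exact hJ (Finset.mem_image_of_mem _ (Finset.mem_univ j))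

/-- **TIGHT**, uniform form: no element of `F` has much mass where two gaps are large. -/
theorem no_two (hco : ∀ J, HasCoc (A.reg J)) (hs : s + 1 = r) (D : DatN μ a F s) {β : ℝ} (hβ : 0 < β) :
    ∃ R : ℕ, ∀ f ∈ F, ‖cl μ (ind ℂ (A.LG 2 R)) (zx μ a E f)‖ < β := no_more hco D (by norm_num) (by omega) hβ

/-- The number of the escape elements is at most the rank. -/
theorem dat_le (hco : ∀ J, HasCoc (A.reg J)) (D : DatN μ a F s) (E : Emb Λ G) : s ≤ r := by
  obtain ⟨J, hJ⟩ : ∃ J : Finset (Fin r), XPpr (A.reg J) (vec μ a E fun _ => (1 : G1)) ≠ 0 := by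
    by_contra hcon
    push Not at hcon
    have h1 := mass_all (μ := μ) (a := a) (E := E) (A := A) fun _ => (1 : G1)
    rw [Finset.sum_eq_zero fun J _ => by rw [hcon J, norm_zero, zero_pow two_ne_zero]] at h1
    norm_num at h1
  have h1 := card_ge hco D (fun _ => F.one_mem) (comp_of_ne hJ)
  have h2 := Finset.card_le_univ J
  rw [Fintype.card_fin] at h2
  exact h1.trans h2

end Main

end Pool.Agent.Helper43.FQ
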