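import Pool.Agent.Helper43.FQ.St
import Pool.Agent.Helper84.GN.I1

/-!
# Project FQ (MP_0f6f3f_an), layer TIGHT: the field of unitaries over an unsorted stratum

The proofs are those of `Helper84/GN/I1.lean`.
-/

set_option autoImplicit false

open Filter Topology Matrix

namespace Pool.Agent.Helper43.FQ

open Pool.Agent.Helper84.NI Pool.Agent.Helper90.RK Pool.Agent.Helper84.GN

variable {G : Type} [Group G] {N : ℕ} {P : PH G N} {S : Su P} (T : StU S)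

/-- The regions and filters of a stratum. -/
def StU.toReg : Reg G where
  W := T.W
  F := T.F
  monoF := T.monoF
  le := T.le
  shift := T.shift

variable {L : Type} [NormedAddCommGroup L] [InnerProductSpace ℂ L]
  (Φ : Pool.Agent.Helper90.RK.Fib T.b L)

private theorem D_mul_D52 (b : Fin N → ℕ) (A B : MN N) :
    D b (D b A * D b B) = D b A * D b B := by
  ext i j
  rw [D_apply]
  split_ifs with hij
  · rfl
  · rw [Matrix.mul_apply]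
    symm
    refine Finset.sum_eq_zero fun k _ => ?_
    rw [D_apply, D_apply]
    split_ifs with h1 h2
    · exact absurd (h1.trans h2) hij
    all_goals simp

private theorem one_mem52 : (1 : MN N) ∈ GLb T.b := ⟨D_one T.b, by simp⟩

theorem coc_one (γ : G) (w : L) : Φ.π (T.C 1 1 γ) w = w := by
  obtain ⟨c, hc, h⟩ := T.C_one γ
  rw [h, fib_scal_one Φ c hc (one_mem52 T), fib_one]

theorem coc_cpt (g h : G) (n : ℕ) (w : L) : ∃ K : Set L, IsCompact K ∧ ∀ᶠ γ in T.F n, Φ.π (T.C g h γ) w ∈ K := by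
  obtain ⟨R, r, hr, hK⟩ := T.C_compact g h
  refine ⟨(fun C => Φ.π C w) '' Kb T.b R r, fib_compact Φ w hr, ?_⟩
  filter_upwards [hK n] with γ hγ
  exact ⟨_, hγ, rfl⟩

theorem coc_mul (g h g' h' : G) (n : ℕ) (w : L) : Tendsto (fun γ => Φ.π (T.C (g * g') (h * h') γ) w -
    Φ.π (T.C g h γ) (Φ.π (T.C g' h' (g⁻¹ * γ * h)) w)) (T.F n) (𝓝 0) := by
  obtain ⟨R, r, hr, hK⟩ := T.C_compact g h
  obtain ⟨R', r', hr', hK'⟩ := T.C_compact g' h'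
  obtain ⟨R'', r'', hr'', hK''⟩ := T.C_compact (g * g') (h * h')
  obtain ⟨n', hsh⟩ := T.shift g h n
  obtain ⟨c, hc, hcm⟩ := T.C_mul g h g' h'
  have e1 := hK n
  have e2 : ∀ᶠ γ in T.F n, T.C g' h' (g⁻¹ * γ * h) ∈ Kb T.b R' r' := hsh.eventually (hK' n')
  have e3 := hK'' n
  set RR := max (N * R * R') R'' with hRR
  set rr := min (r * r') r'' with hrr
  have hrr0 : 0 < rr := lt_min (mul_pos hr hr') hr''
  have hf : ∀ᶠ γ in T.F n, T.C g h γ * T.C g' h' (g⁻¹ * γ * h) ∈ Kb T.b RR rr := by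
    filter_upwards [e1, e2] with γ h1 h2
    exact Kb_mono (le_max_left _ _) (min_le_left _ _) (Kb_mul h1 h2 hr.le hr'.le)
  have hg : ∀ᶠ γ in T.F n, T.C (g * g') (h * h') γ ∈ Kb T.b RR rr := by
    filter_upwards [e3] with γ h3
    exact Kb_mono (le_max_right _ _) (min_le_right _ _) h3
  have key := fib_tendsto_sub Φ hrr0 hc hf hg (hcm n) w
  have key2 := key.neg
  rw [neg_zero] at key2
  refine key2.congr' ?_
  filter_upwards [e1, e2] with γ h1 h2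
  rw [Φ.mul _ _ (Kb_sub T.b hr h1) (Kb_sub T.b hr' h2), neg_sub]

theorem coc_left (g : G) (n : ℕ) : Tendsto (fun γ => Φ.π (T.C g 1 γ) Φ.v - Φ.v) (T.F n) (𝓝 0) := by
  have h := (fib_tendsto_v Φ (f := fun γ => T.C g 1 γ) (fun γ => D_D T.b _) (T.C_left g n)).sub_const
    Φ.v
  rwa [sub_self] at h

theorem coc_cptX (n : ℕ) : ∃ K : Set L, IsCompact K ∧ ∀ᶠ γ in T.F n, Φ.π (S.X γ) Φ.v ∈ K := by
  obtain ⟨K, hK⟩ := T.X_compact n
  refine ⟨(fun C => Φ.π C Φ.v) '' Kb T.b K 1, fib_compact Φ Φ.v one_pos, ?_⟩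
  have hm : T.W n ∈ T.F n := T.le n (mem_principal_self _)
  filter_upwards [hm] with γ hγ
  obtain ⟨z, hz0, hz1, hz2⟩ := hK γ hγ
  refine ⟨_, hz2, ?_⟩
  exact congrArg (fun T : L ≃ₗᵢ[ℂ] L => T Φ.v) (Φ.scal z (S.X γ) ⟨hz0, hz1⟩ (T.X_mem γ))

theorem coc_right (h : G) (n : ℕ) : Tendsto (fun γ => Φ.π (T.C 1 h γ) (Φ.π (S.X (1⁻¹ * γ * h)) Φ.v) -
    Φ.π (S.X γ) Φ.v) (T.F n) (𝓝 0) := by
  obtain ⟨O, hO0, hO1, hO2⟩ := T.C_right h
  obtain ⟨R, r, hr, hK⟩ := T.C_compact 1 h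
  have hv := fib_tendsto_v' Φ hO0 (hO2 n)
  have hdet := eventually_GLb hO0 (hO2 n)
  have h0 := (hv.sub_const Φ.v).norm
  rw [sub_self, norm_zero] at h0
  rw [tendsto_zero_iff_norm_tendsto_zero]
  refine h0.congr' ?_
  filter_upwards [hK n, hdet] with γ h1 h2
  obtain ⟨c, hc, he⟩ := hO1 γ
  have hX := T.X_mem γ
  have hX' := T.X_mem (γ * h)
  have hC := Kb_sub T.b hr h1
  have hXO : S.X γ * O γ ∈ GLb T.b := by
    refine ⟨?_, ?_⟩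
    · have e := D_mul_D52 T.b (S.X γ) (O γ)
      rwa [hX.1, h2.1] at e
    · rw [Matrix.det_mul]
      exact mul_ne_zero hX.2 h2.2
  have e1 : Φ.π (T.C 1 h γ) (Φ.π (S.X (γ * h)) Φ.v) = Φ.π (S.X γ) (Φ.π (O γ) Φ.v) := by
    rw [← Φ.mul _ _ hC hX', he, fib_scal_one Φ c hc hXO, Φ.mul _ _ hX h2]
  rw [inv_one, one_mul, e1, ← map_sub, LinearIsometryEquiv.norm_map]

private theorem re_symm52 (Ψ : Pool.Agent.Helper90.RK.FibM T.b L) (C : MN N) :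
    (inner ℂ (Ψ.Φ.π C Ψ.Φ.v) Ψ.Φ.v : ℂ).re = (inner ℂ Ψ.Φ.v (Ψ.Φ.π C Ψ.Φ.v) : ℂ).re := by
  rw [← inner_conj_symm, Complex.conj_re]

theorem coc_nonneg (Ψ : Pool.Agent.Helper90.RK.FibM T.b L) (γ : G) :
    0 ≤ (inner ℂ (Ψ.Φ.π (S.X γ) Ψ.Φ.v) Ψ.Φ.v : ℂ).re := by
  rw [re_symm52 T Ψ]
  exact (Ψ.pos _ (T.X_mem γ)).le

theorem coc_pos (Ψ : Pool.Agent.Helper90.RK.FibM T.b L) (n : ℕ) :
    ∃ c : ℝ, 0 < c ∧ ∀ γ ∈ T.W n, c ≤ (inner ℂ (Ψ.Φ.π (S.X γ) Ψ.Φ.v) Ψ.Φ.v : ℂ).re := by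
  obtain ⟨K, hKX⟩ := T.X_compact n
  by_cases hne : (Kb T.b K 1).Nonempty
  · have hK := isCompact_Kb (b := T.b) K 1
    have hcont : ContinuousOn (fun C : MN N => (inner ℂ Ψ.Φ.v (Ψ.Φ.π C Ψ.Φ.v) : ℂ).re)
        (Kb T.b K 1) := by
      have h1 : ContinuousOn (fun C : MN N => Ψ.Φ.π C Ψ.Φ.v) (Kb T.b K 1) :=
        (Ψ.Φ.cont Ψ.Φ.v).mono (Kb_sub T.b one_pos)
      have h2 : Continuous fun w : L => (inner ℂ Ψ.Φ.v w : ℂ).re :=
        Complex.continuous_re.comp (continuous_const.inner continuous_id)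
      exact h2.comp_continuousOn h1
    obtain ⟨C0, hC0, hmin⟩ := hK.exists_isMinOn hne hcont
    refine ⟨_, Ψ.pos C0 (Kb_sub T.b one_pos hC0), fun γ hγ => ?_⟩
    obtain ⟨z, hz0, hz1, hz2⟩ := hKX γ hγ
    rw [re_symm52 T Ψ, ← Ψ.Φ.scal z (S.X γ) ⟨hz0, hz1⟩ (T.X_mem γ)]
    exact hmin hz2
  · refine ⟨1, one_pos, fun γ hγ => ?_⟩
    obtain ⟨z, -, -, hz2⟩ := hKX γ hγ
    exact absurd ⟨_, hz2⟩ hne

/-- The field of unitaries over a stratum. -/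
noncomputable def toCocU (Ψ : Pool.Agent.Helper90.RK.FibM T.b L) : Coc T.toReg L where
  pi g h γ := Ψ.Φ.π (T.C g h γ)
  v := Ψ.Φ.v
  vX γ := Ψ.Φ.π (S.X γ) Ψ.Φ.v
  nv := Ψ.Φ.nv
  nvX γ := by rw [LinearIsometryEquiv.norm_map, Ψ.Φ.nv]
  one := coc_one T Ψ.Φ
  cpt := coc_cpt T Ψ.Φ
  mul := coc_mul T Ψ.Φ
  left := coc_left T Ψ.Φ
  cptX := coc_cptX T Ψ.Φ
  right := coc_right T Ψ.Φ
  nonneg := coc_nonneg T Ψ
  pos := coc_pos T Ψ



end Pool.Agent.Helper43.FQ
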