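import Pool.Agent.Helper84.GN.Reg

/-!
# Project FQ (MP_0f6f3f_an, full question), layer TIGHT: gap functions and their strata

`Gp G r`: `r` gap functions on a discrete group (the simple roots of the Cartan projection). `A.reg J`: the stratum where the gaps in `J` are bounded and the gaps outside of `J` tend to infinity.
-/

set_option autoImplicit false

open Filter Topology

namespace Pool.Agent.Helper43.FQ

open Pool.Agent.Helper84.GN

/-- Gap functions. -/
structure Gp (G : Type) [Group G] (r : ℕ) where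
  /-- the gaps -/
  gap : G → Fin r → ℝ
  nonneg : ∀ γ l, 0 ≤ gap γ l
  gshift : ∀ g h : G, ∃ C : ℕ, ∀ γ l, gap (g⁻¹ * γ * h) l ≤ gap γ l + C ∧ gap γ l ≤ gap (g⁻¹ * γ * h) l + C
  gfin : ∀ n : ℕ, {γ | ∀ l, gap γ l ≤ n}.Finite

namespace Gp

variable {G : Type} [Group G] {r : ℕ} (A : Gp G r)

/-- The gaps in `J` are at most `n`. -/
def WW (J : Finset (Fin r)) (n : ℕ) : Set G := {γ | ∀ i ∈ J, A.gap γ i ≤ n}

/-- The gaps outside of `J` are at least `m`. -/
def BB (J : Finset (Fin r)) (m : ℕ) : Set G := {γ | ∀ i, i ∉ J → (m : ℝ) ≤ A.gap γ i}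

theorem WW_mono (J : Finset (Fin r)) {n n' : ℕ} (h : n ≤ n') : A.WW J n ⊆ A.WW J n' :=
  fun _ hγ i hi => (hγ i hi).trans (by exact_mod_cast h)

theorem BB_anti (J : Finset (Fin r)) {m m' : ℕ} (h : m ≤ m') : A.BB J m' ⊆ A.BB J m :=
  fun _ hγ i hi => le_trans (by exact_mod_cast h) (hγ i hi)

/-- The filters of the stratum. -/
def FF (J : Finset (Fin r)) (n : ℕ) : Filter G := 𝓟 (A.WW J n) ⊓ ⨅ m : ℕ, 𝓟 (A.BB J m)

theorem mem_FF {J : Finset (Fin r)} {n : ℕ} {s : Set G} :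
    s ∈ A.FF J n ↔ ∃ m : ℕ, A.WW J n ∩ A.BB J m ⊆ s := by
  have hd : Directed (· ≥ ·) fun m : ℕ => 𝓟 (A.BB J m) := by
    intro m m'
    exact ⟨max m m', principal_mono.2 (A.BB_anti J (le_max_left _ _)),
      principal_mono.2 (A.BB_anti J (le_max_right _ _))⟩
  unfold FF
  rw [inf_comm, mem_inf_principal, mem_iInf_of_directed hd]
  constructor
  · rintro ⟨m, hm⟩
    exact ⟨m, fun γ hγ => (mem_principal.1 hm) hγ.2 hγ.1⟩
  · rintro ⟨m, hm⟩
    exact ⟨m, mem_principal.2 fun γ hγ h => hm ⟨h, hγ⟩⟩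

theorem BB_mem_FF (J : Finset (Fin r)) (m n : ℕ) : A.BB J m ∈ A.FF J n := A.mem_FF.2 ⟨m, Set.inter_subset_right⟩

theorem WW_mem_FF (J : Finset (Fin r)) (n : ℕ) : A.WW J n ∈ A.FF J n := A.mem_FF.2 ⟨0, Set.inter_subset_left⟩

/-- The stratum: gaps in `J` bounded, the other gaps tend to infinity. -/
def reg (J : Finset (Fin r)) : Reg G where
  W := A.WW J
  F := A.FF J
  monoF n := by
    intro s hs
    obtain ⟨m, hm⟩ := A.mem_FF.1 hs
    exact A.mem_FF.2 ⟨m, (Set.inter_subset_inter_left _ (A.WW_mono J (Nat.le_succ n))).trans hm⟩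
  le n := inf_le_left
  shift g h n := by
    obtain ⟨C, hC⟩ := A.gshift g h
    refine ⟨n + C, fun s hs => ?_⟩
    obtain ⟨m, hm⟩ := A.mem_FF.1 hs
    refine A.mem_FF.2 ⟨m + C, fun γ hγ => hm ⟨fun k hk => ?_, fun k hk => ?_⟩⟩
    · have h1 := (hC γ k).1
      have h2 := hγ.1 k hk
      push_cast
      linarith
    · have h1 := (hC γ k).2
      have h2 := hγ.2 k hk
      push_cast at h2
      linarith

theorem tendsto_gap (J : Finset (Fin r)) (n : ℕ) {l : Fin r} (hl : l ∉ J) :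
    Tendsto (fun γ => A.gap γ l) (A.FF J n) atTop := by
  rw [tendsto_atTop]
  intro c
  filter_upwards [A.BB_mem_FF J ⌈c⌉₊ n] with γ hγ
  exact (Nat.le_ceil c).trans (hγ l hl)

theorem FF_le_comap (J : Finset (Fin r)) (n : ℕ) {l : Fin r} (hl : l ∉ J) :
    A.FF J n ≤ comap (fun γ => A.gap γ l) atTop := (A.tendsto_gap J n hl).le_comap

end Gp

end Pool.Agent.Helper43.FQ
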