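import Pool.Agent.Helper43.FQ.Su
import Pool.Agent.Helper90.RK.GD
import Pool.Agent.Helper90.RK.DM

/-!
# Project FQ (MP_0f6f3f_an), layer TIGHT: strata for unsorted singular values

`StU S`: a stratum: block function `b`, regions `W n`, filters `F n`; instead of the gaps between the blocks the asymptotic triangularity of `m` and `n` is part of the data. The proofs are those of `Helper90/RK/GD.lean`.
-/

set_option autoImplicit false

open Filter Topology Matrix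

namespace Pool.Agent.Helper43.FQ

open Pool.Agent.Helper84.NI Pool.Agent.Helper90.RK

/-- A stratum. -/
structure StU {G : Type} [Group G] {N : ℕ} {P : PH G N} (S : Su P) where
  /-- block function -/
  b : Fin N → ℕ
  mono : Monotone b
  /-- regions -/
  W : ℕ → Set G
  /-- neighbourhoods of infinity in the regions -/
  F : ℕ → Filter G
  monoF : ∀ n, F n ≤ F (n + 1)
  le : ∀ n, F n ≤ 𝓟 (W n)
  shift : ∀ (g h : G) (n : ℕ), ∃ n', Tendsto (fun γ => g⁻¹ * γ * h) (F n) (F n')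
  asm : ∀ (g h : G) (n : ℕ) (i j : Fin N), b i < b j → Tendsto (fun γ => S.m g h γ i j) (F n) (𝓝 0)
  asn : ∀ (h : G) (n : ℕ) (i j : Fin N), b j < b i → Tendsto (fun γ => S.n 1 h γ i j) (F n) (𝓝 0)
  cpt : ∀ n, ∃ K : ℝ, ∀ γ ∈ W n, ∀ i j, b i = b j → S.s γ i ≤ K * S.s γ j

variable {G : Type} [Group G] {N : ℕ} {P : PH G N} {S : Su P} (T : StU S)

/-- The Levi cocycle (asymptotic). -/
noncomputable def StU.C {S : Su P} (T : StU S) (g h γ : G) : MN N := D T.b (S.m g h γ)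

namespace StU

theorem tendsto_m (g h : G) (n : ℕ) {i j : Fin N} (hij : T.b i < T.b j) :
    Tendsto (fun γ => S.m g h γ i j) (T.F n) (𝓝 0) := T.asm g h n i j hij

theorem tendsto_m' (g h g' h' : G) (n : ℕ) {i j : Fin N} (hij : T.b i < T.b j) :
    Tendsto (fun γ => S.m g' h' (g⁻¹ * γ * h) i j) (T.F n) (𝓝 0) := by
  obtain ⟨n', hn'⟩ := T.shift g h n
  exact (T.tendsto_m g' h' n' hij).comp hn'

theorem C_compact (g h : G) : ∃ R r : ℝ, 0 < r ∧ ∀ n, ∀ᶠ γ in T.F n, T.C g h γ ∈ Kb T.b R r := by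
  refine ⟨Real.sqrt (ns (P.ι h)), 1 / 2, by norm_num, fun n => ?_⟩
  have h1 := det_sub_small T.b (A := fun γ => S.m g h γ) (R := Real.sqrt (ns (P.ι h)))
    (fun γ i j => S.norm_m_le g h γ i j) (fun i j hij => T.tendsto_m g h n hij)
  have h2 := h1.norm
  rw [norm_zero] at h2
  filter_upwards [h2.eventually (gt_mem_nhds (show (0:ℝ) < 1 / 2 by norm_num))] with γ hγ
  refine ⟨D_D T.b _, fun i j => ?_, ?_⟩
  · show ‖D T.b (S.m g h γ) i j‖ ≤ _
    rw [D_apply]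
    split_ifs
    · exact S.norm_m_le g h γ i j
    · rw [norm_zero]
      exact Real.sqrt_nonneg _
  · have h3 := S.norm_det_m g h γ
    have h4 : ‖(S.m g h γ).det - (D T.b (S.m g h γ)).det‖ < 1 / 2 := hγ
    have h5 : ‖(S.m g h γ).det‖ ≤ ‖(S.m g h γ).det - (D T.b (S.m g h γ)).det‖ +
        ‖(D T.b (S.m g h γ)).det‖ := by
      have := norm_add_le ((S.m g h γ).det - (D T.b (S.m g h γ)).det) (D T.b (S.m g h γ)).det
      rwa [sub_add_cancel] at this
    show 1 / 2 ≤ ‖(D T.b (S.m g h γ)).det‖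
    linarith

theorem C_mul (g h g' h' : G) : ∃ c : G → ℂ, (∀ γ, ‖c γ‖ = 1) ∧ ∀ n,
    Tendsto (fun γ => c γ • (T.C g h γ * T.C g' h' (g⁻¹ * γ * h)) - T.C (g * g') (h * h') γ) (T.F n) (𝓝 0) := by
  choose c hc1 hc2 using fun γ => S.m_mul g h g' h' γ
  refine ⟨c, hc1, fun n => ?_⟩
  have h1 := D_mul_sub T.b (A := fun γ => S.m g h γ) (B := fun γ => S.m g' h' (g⁻¹ * γ * h))
    (R := max (Real.sqrt (ns (P.ι h))) (Real.sqrt (ns (P.ι h'))))
    (fun γ i j => (S.norm_m_le g h γ i j).trans (le_max_left _ _))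
    (fun γ i j => (S.norm_m_le g' h' _ i j).trans (le_max_right _ _))
    (fun i j hij => T.tendsto_m g h n hij) (fun i j hij => T.tendsto_m' g h g' h' n hij)
  have e : ∀ γ, c γ • (T.C g h γ * T.C g' h' (g⁻¹ * γ * h)) - T.C (g * g') (h * h') γ =
      c γ • (D T.b (S.m g h γ) * D T.b (S.m g' h' (g⁻¹ * γ * h)) -
        D T.b (S.m g h γ * S.m g' h' (g⁻¹ * γ * h))) := by
    intro γ
    unfold C
    rw [hc2 γ, D_smul, smul_sub]
  simp only [e]
  refine tendsto_pi_nhds.mpr fun i => tendsto_pi_nhds.mpr fun j => ?_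
  change Tendsto _ _ (𝓝 ((0 : MN N) i j))
  rw [Matrix.zero_apply, tendsto_zero_iff_norm_tendsto_zero]
  have h3 : Tendsto (fun γ => ‖(D T.b (S.m g h γ) * D T.b (S.m g' h' (g⁻¹ * γ * h)) -
        D T.b (S.m g h γ * S.m g' h' (g⁻¹ * γ * h))) i j‖) (T.F n) (𝓝 0) := by
    have h4 := ((tendsto_pi_nhds.mp (tendsto_pi_nhds.mp h1 i)) j).norm
    rwa [show ‖(0 : MN N) i j‖ = 0 by rw [Matrix.zero_apply, norm_zero]] at h4
  refine h3.congr fun γ => ?_
  rw [Matrix.smul_apply, smul_eq_mul, norm_mul, hc1, one_mul]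

theorem C_one (γ : G) : ∃ c : ℂ, ‖c‖ = 1 ∧ T.C 1 1 γ = c • (1 : MN N) := by
  obtain ⟨c, hc, h⟩ := S.m_one γ
  refine ⟨c, hc, ?_⟩
  unfold C
  rw [h, D_smul, D_one]

theorem C_left (g : G) (n : ℕ) : Tendsto (fun γ => T.C g 1 γ * (T.C g 1 γ)ᴴ) (T.F n) (𝓝 1) := by
  exact D_mul_star T.b (A := fun γ => S.m g 1 γ) (fun γ => S.m_unitary g γ)
    (Or.inl fun i j hij => T.tendsto_m g 1 n hij)

theorem C_right (h : G) : ∃ O : G → MN N, (∀ γ, D T.b (O γ) = O γ) ∧
    (∀ γ, ∃ c : ℂ, ‖c‖ = 1 ∧ T.C 1 h γ * S.X (γ * h) = c • (S.X γ * O γ)) ∧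
    (∀ n, Tendsto (fun γ => (O γ)ᴴ * O γ) (T.F n) (𝓝 1)) := by
  refine ⟨fun γ => D T.b (S.n 1 h γ), fun γ => D_D T.b _, fun γ => ?_, fun n => ?_⟩
  · obtain ⟨c, hc, he⟩ := S.m_eq 1 h γ
    refine ⟨c, hc, ?_⟩
    have hg : (1 : G)⁻¹ * γ * h = γ * h := by rw [inv_one, one_mul]
    rw [hg] at he
    ext i j
    have hj : (S.s (γ * h) j : ℂ) ≠ 0 := S.ofReal_ne _ j
    have hX : ∀ γ' : G, S.X γ' = diagonal (fun k : Fin N => ((S.s γ' k)⁻¹ : ℂ)) := fun γ' => rfl
    rw [Matrix.smul_apply, hX, hX, Matrix.mul_diagonal, Matrix.diagonal_mul]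
    change D T.b (S.m 1 h γ) i j * ((S.s (γ * h) j : ℂ))⁻¹ =
      c * ((S.s γ i : ℂ)⁻¹ * D T.b (S.n 1 h γ) i j)
    rw [D_apply, D_apply]
    split_ifs
    · rw [he]
      push_cast
      field_simp
    · rw [zero_mul, mul_zero, mul_zero]
  · exact D_star_mul T.b (A := fun γ => S.n 1 h γ) (fun γ => S.n_unitary h γ) (Or.inr fun i j hij => T.asn h n i j hij)

theorem X_compact (n : ℕ) : ∃ K : ℝ, ∀ γ ∈ T.W n, ∃ z : Fin N → ℂ, (∀ i, z i ≠ 0) ∧
    (∀ i j, T.b i = T.b j → z i = z j) ∧ diagonal z * S.X γ ∈ Kb T.b K 1 := by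
  classical
  obtain ⟨K, hK⟩ := T.cpt n
  refine ⟨max K 1, fun γ hγ => ?_⟩
  have hne : ∀ i : Fin N, (Finset.univ.filter fun j => T.b j = T.b i).Nonempty := fun i => ⟨i, by simp⟩
  let f : Fin N → ℝ := fun i => (Finset.univ.filter fun j => T.b j = T.b i).sup' (hne i) fun j => S.s γ j
  have hf3 : ∀ i j, T.b i = T.b j → f i = f j := fun i j hij => by
    have e : (Finset.univ.filter fun k => T.b k = T.b i) = Finset.univ.filter fun k => T.b k = T.b j := by
      rw [hij]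
    simp only [f]
    congr 1
  have hf1 : ∀ i, S.s γ i ≤ f i := fun i =>
    Finset.le_sup' (fun j => S.s γ j) (by simp)
  have hf2 : ∀ i, f i ≤ K * S.s γ i := fun i => by
    refine Finset.sup'_le (hne i) _ fun j hj => ?_
    rw [Finset.mem_filter] at hj
    exact hK γ hγ _ _ hj.2
  have hf0 : ∀ i, 0 < f i := fun i => lt_of_lt_of_le (S.pos γ i) (hf1 i)
  have hr1 : ∀ i, 1 ≤ f i / S.s γ i := fun i => by
    rw [le_div_iff₀ (S.pos γ i), one_mul]
    exact hf1 i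
  have hr2 : ∀ i, f i / S.s γ i ≤ K := fun i => by
    rw [div_le_iff₀ (S.pos γ i)]
    exact hf2 i
  have e : diagonal (fun i => (f i : ℂ)) * S.X γ =
      diagonal (fun i => ((f i / S.s γ i : ℝ) : ℂ)) := by
    unfold Su.X
    rw [Matrix.diagonal_mul_diagonal]
    congr 1
    funext i
    push_cast
    rw [div_eq_mul_inv]
  have hn : ∀ i, ‖((f i / S.s γ i : ℝ) : ℂ)‖ = f i / S.s γ i := fun i => by
    rw [Complex.norm_real, Real.norm_of_nonneg (zero_le_one.trans (hr1 i))]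
  refine ⟨fun i => (f i : ℂ), fun i => Complex.ofReal_ne_zero.2 (hf0 i).ne', fun i j hij => ?_, ?_⟩
  · show (f i : ℂ) = (f j : ℂ)
    rw [hf3 i j hij]
  · rw [e]
    refine ⟨D_diagonal T.b _, fun i j => ?_, ?_⟩
    · by_cases hij : i = j
      · subst hij
        rw [Matrix.diagonal_apply_eq, hn]
        exact (hr2 i).trans (le_max_left _ _)
      · rw [Matrix.diagonal_apply_ne _ hij, norm_zero]
        exact zero_le_one.trans (le_max_right _ _)
    · rw [Matrix.det_diagonal, norm_prod]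
      calc (1:ℝ) = ∏ _i : Fin N, (1:ℝ) := by rw [Finset.prod_const_one]
        _ ≤ _ := Finset.prod_le_prod (fun i _ => zero_le_one) fun i _ => by
            rw [hn]
            exact hr1 i

theorem X_mem (γ : G) : S.X γ ∈ GLb T.b := by
  refine ⟨D_diagonal T.b _, ?_⟩
  unfold Su.X
  rw [Matrix.det_diagonal]
  exact Finset.prod_ne_zero_iff.2 fun i _ => inv_ne_zero (S.ofReal_ne γ i)

end StU



end Pool.Agent.Helper43.FQ
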