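import Pool.Agent.Helper43.FQ.Gap
import Pool.Agent.Helper43.TA.Ms

/-!
# Project FQ (MP_0f6f3f_an, full question), layer TIGHT: the decomposition into types

`orth_reg`: the limit spaces of the strata `A.reg J` are orthogonal to each other. `sum_proj`: every vector of `UE μ (ℓ²(G))` is the sum of its components over the strata.
-/

set_option autoImplicit false
set_option linter.unusedSectionVars false

open MeasureTheory Filter Topology

namespace Pool.Agent.Helper43.FQ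

open Pool.Agent.Helper84.NI Pool.Agent.Helper84.GVN Pool.Agent.Helper90.RK
open Pool.Agent.Helper84.GN hiding toReg
open Pool.Agent.Helper96.RK Pool.Agent.Helper66.FR Pool.Agent.Helper84.FR Pool.Agent.Helper96.FR Pool.Agent.Helper55.FR
open Pool.Agent.Helper43.TA

variable {X G : Type} [MeasurableSpace X] {μ : Measure X} [IsProbabilityMeasure μ] [Group G]

/-! ### Indicator projections -/

theorem C_empty (ξ : UE μ (L2 G)) : UE.map μ (ind ℂ (∅ : Set G)) ξ = 0 := by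
  rw [ind_empty3, UE.map_zero]

theorem C_univ (ξ : UE μ (L2 G)) : UE.map μ (ind ℂ (Set.univ : Set G)) ξ = ξ := by
  have h : (ind ℂ (Set.univ : Set G) : L2 G →L[ℂ] L2 G) = ContinuousLinearMap.id ℂ (L2 G) := by
    ext1 x
    apply lv_ext
    intro i
    rw [ind_apply, if_pos (Set.mem_univ i), ContinuousLinearMap.id_apply]
  rw [h, UE.map_id]

theorem inner_disj {s t : Set G} (h : s ∩ t = ∅) {ξ η : UE μ (L2 G)} (hξ : UE.map μ (ind ℂ s) ξ = ξ)
    (hη : UE.map μ (ind ℂ t) η = η) : (inner ℂ ξ η : ℂ) = 0 := by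
  rw [← hξ, ← hη, xinner_ind, xind_ind, h, C_empty, inner_zero_right]

/-- `⟪C s v, C t v⟫ = ‖C t v‖ ^ 2` for `t ⊆ s`. -/
theorem inner_C {s t : Set G} (h : t ⊆ s) (v : UE μ (L2 G)) :
    (inner ℂ (UE.map μ (ind ℂ s) v) (UE.map μ (ind ℂ t) v) : ℂ) = ((‖UE.map μ (ind ℂ t) v‖ ^ 2 : ℝ) : ℂ) := by
  have h1 : UE.map μ (ind ℂ t) v = UE.map μ (ind ℂ t) (UE.map μ (ind ℂ t) v) := by
    rw [xind_ind, Set.inter_self]
  have h2 : UE.map μ (ind ℂ t) (UE.map μ (ind ℂ s) v) = UE.map μ (ind ℂ t) v := by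
    rw [xind_ind, Set.inter_eq_left.2 h]
  calc (inner ℂ (UE.map μ (ind ℂ s) v) (UE.map μ (ind ℂ t) v) : ℂ)
      = inner ℂ (UE.map μ (ind ℂ s) v) (UE.map μ (ind ℂ t) (UE.map μ (ind ℂ t) v)) := by rw [← h1]
    _ = inner ℂ (UE.map μ (ind ℂ t) (UE.map μ (ind ℂ s) v)) (UE.map μ (ind ℂ t) v) :=
          (xinner_ind t (UE.map μ (ind ℂ s) v) (UE.map μ (ind ℂ t) v)).symm
    _ = inner ℂ (UE.map μ (ind ℂ t) v) (UE.map μ (ind ℂ t) v) := by rw [h2]
    _ = _ := by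
      rw [inner_self_eq_norm_sq_to_K]
      norm_cast

theorem dist_C {s t : Set G} (h : t ⊆ s) (v : UE μ (L2 G)) :
    ‖UE.map μ (ind ℂ s) v - UE.map μ (ind ℂ t) v‖ ^ 2 =
      ‖UE.map μ (ind ℂ s) v‖ ^ 2 - ‖UE.map μ (ind ℂ t) v‖ ^ 2 := by
  rw [norm_sub_sq (𝕜 := ℂ), inner_C h v]
  rw [show (RCLike.re (((‖UE.map μ (ind ℂ t) v‖ ^ 2 : ℝ) : ℂ)) : ℝ) = ‖UE.map μ (ind ℂ t) v‖ ^ 2 from Complex.ofReal_re _]
  ring

theorem C_add {s t : Set G} (h : Disjoint s t) (ξ : UE μ (L2 G)) :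
    UE.map μ (ind ℂ (s ∪ t)) ξ = UE.map μ (ind ℂ s) ξ + UE.map μ (ind ℂ t) ξ := by
  classical
  have h1 : ind ℂ (s ∪ t) = ind ℂ s + ind ℂ t := by
    ext1 x
    apply lv_ext
    intro i
    rw [_root_.add_apply, lp.coeFn_add, Pi.add_apply, ind_apply, ind_apply, ind_apply]
    by_cases h4 : i ∈ s
    · have h5 : i ∉ t := Set.disjoint_left.1 h h4
      simp [h4, h5]
    · by_cases h5 : i ∈ t <;> simp [h4, h5]
  rw [h1, UE.map_add]

theorem C_sdiff {s t : Set G} (h : t ⊆ s) (ξ : UE μ (L2 G)) :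
    UE.map μ (ind ℂ s) ξ - UE.map μ (ind ℂ t) ξ = UE.map μ (ind ℂ (s \ t)) ξ := by
  have h1 := C_add (μ := μ) (disjoint_sdiff_self_right : Disjoint t (s \ t)) ξ
  rw [Set.union_sdiff_cancel h] at h1
  rw [h1, add_sub_cancel_left]

theorem sq_union' (s t : Set G) (ξ : UE μ (L2 G)) :
    ‖UE.map μ (ind ℂ (s ∪ t)) ξ‖ ^ 2 ≤ ‖UE.map μ (ind ℂ s) ξ‖ ^ 2 + ‖UE.map μ (ind ℂ t) ξ‖ ^ 2 := by
  have h1 := dist_C (μ := μ) (Set.subset_union_left : s ⊆ s ∪ t) ξ
  rw [C_sdiff Set.subset_union_left, Set.union_sdiff_left] at h1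
  have h2 := pow_le_pow_left₀ (norm_nonneg _) (sq_mono (Set.sdiff_subset : t \ s ⊆ t) ξ) 2
  linarith

theorem sq_biUnion {I : Type} (T : Finset I) (s : I → Set G) (ξ : UE μ (L2 G)) :
    ‖UE.map μ (ind ℂ (⋃ i ∈ T, s i)) ξ‖ ^ 2 ≤ ∑ i ∈ T, ‖UE.map μ (ind ℂ (s i)) ξ‖ ^ 2 := by
  classical
  induction T using Finset.induction_on with
  | empty =>
    rw [Finset.sum_empty]
    have h1 : (⋃ i ∈ (∅ : Finset I), s i) = ∅ := by simp
    rw [h1, C_empty, norm_zero, zero_pow two_ne_zero]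
  | insert i T hi ih =>
    rw [Finset.sum_insert hi, Finset.set_biUnion_insert]
    exact (sq_union' _ _ ξ).trans (add_le_add_right ih _)

theorem map_sum' {I : Type} (s : Finset I) (T : I → L2 G →L[ℂ] L2 G) (ξ : UE μ (L2 G)) :
    UE.map μ (∑ i ∈ s, T i) ξ = ∑ i ∈ s, UE.map μ (T i) ξ := by
  classical
  induction s using Finset.induction_on with
  | empty => rw [Finset.sum_empty, Finset.sum_empty, UE.map_zero]
  | insert i s hi ih => rw [Finset.sum_insert hi, Finset.sum_insert hi, UE.map_add, ih]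

/-- The limit along a decreasing sequence of sets which is finer than a filter of the region. -/
theorem lim_vec (R : Reg G) (n : ℕ) {A : ℕ → Set G} (hA : Antitone A) (hF : ∀ s ∈ R.F n, ∃ m, A m ⊆ s)
    (v : UE μ (L2 G)) : ∃ η ∈ XUa μ R, Tendsto (fun m => UE.map μ (ind ℂ (A m)) v) atTop (𝓝 η) := by
  set ξ : ℕ → UE μ (L2 G) := fun m => UE.map μ (ind ℂ (A m)) v with hξ
  have hanti : Antitone fun m => ‖ξ m‖ ^ 2 := by
    intro m m' hm
    have h1 := dist_C (hA hm) v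
    have h2 : 0 ≤ ‖UE.map μ (ind ℂ (A m)) v - UE.map μ (ind ℂ (A m')) v‖ ^ 2 := by positivity
    change ‖UE.map μ (ind ℂ (A m')) v‖ ^ 2 ≤ ‖UE.map μ (ind ℂ (A m)) v‖ ^ 2
    linarith
  have hbdd : BddBelow (Set.range fun m => ‖ξ m‖ ^ 2) := ⟨0, by
    rintro _ ⟨m, rfl⟩
    positivity⟩
  have hlim := tendsto_atTop_ciInf hanti hbdd
  have hcs : CauchySeq fun m => ‖ξ m‖ ^ 2 := hlim.cauchySeq
  have hcau : CauchySeq ξ := by
    rw [Metric.cauchySeq_iff] at hcs ⊢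
    intro δ hδ
    obtain ⟨N0, hN0⟩ := hcs (δ ^ 2) (by positivity)
    refine ⟨N0, fun m hm k hk => ?_⟩
    have key : ∀ p q : ℕ, N0 ≤ p → p ≤ q → ‖ξ p - ξ q‖ < δ := by
      intro p q hp hpq
      have h1 := dist_C (hA hpq) v
      have h2 := hN0 p hp q (hp.trans hpq)
      rw [Real.dist_eq] at h2
      have h3 : ‖ξ p - ξ q‖ ^ 2 < δ ^ 2 := by
        change ‖UE.map μ (ind ℂ (A p)) v - UE.map μ (ind ℂ (A q)) v‖ ^ 2 < δ ^ 2
        rw [h1]
        exact (le_abs_self _).trans_lt h2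
      exact lt_of_pow_lt_pow_left₀ 2 hδ.le h3
    rw [dist_eq_norm]
    rcases le_total m k with h | h
    · exact key m k hm h
    · rw [norm_sub_rev]
      exact key k m hk h
  obtain ⟨η, hη⟩ := cauchySeq_tendsto_of_complete hcau
  have hfix : ∀ s ∈ R.F n, UE.map μ (ind ℂ s) η = η := by
    intro s hs
    obtain ⟨m0, hm0⟩ := hF s hs
    have h1 : Tendsto (fun m => UE.map μ (ind ℂ s) (ξ m)) atTop (𝓝 (UE.map μ (ind ℂ s) η)) :=
      ((UE.map μ (ind ℂ s)).continuous.tendsto η).comp hη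
    have h2 : (fun m => UE.map μ (ind ℂ s) (ξ m)) =ᶠ[atTop] ξ := by
      filter_upwards [eventually_ge_atTop m0] with m hm
      change UE.map μ (ind ℂ s) (UE.map μ (ind ℂ (A m)) v) = UE.map μ (ind ℂ (A m)) v
      rw [xind_ind, Set.inter_eq_right.2 ((hA hm).trans hm0)]
    exact tendsto_nhds_unique (h1.congr' h2) hη
  exact ⟨η, Submodule.le_topologicalClosure _ (Submodule.subset_span ⟨n, hfix⟩), hη⟩

variable {r : ℕ} (A : Gp G r)

/-- Different strata are orthogonal. -/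
theorem XUa_le_orth {J J' : Finset (Fin r)} (h : J ≠ J') : XUa μ (A.reg J) ≤ (XUa μ (A.reg J'))ᗮ := by
  -- the generators
  have key : ∀ ξ ∈ XUaSet μ (A.reg J), ∀ η ∈ XUaSet μ (A.reg J'), (inner ℂ η ξ : ℂ) = 0 := by
    rintro ξ ⟨n, hξ⟩ η ⟨n', hη⟩
    obtain ⟨l, hl⟩ : ∃ l, (l ∈ J ∧ l ∉ J') ∨ (l ∈ J' ∧ l ∉ J) := by
      by_contra hcon
      push Not at hcon
      exact h (Finset.ext fun l => ⟨(hcon l).1, (hcon l).2⟩)
    rcases hl with ⟨h1, h2⟩ | ⟨h1, h2⟩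
    · refine inner_disj (s := A.BB J' (n + 1)) (t := A.WW J n) ?_ (hη _ (A.BB_mem_FF J' (n + 1) n'))
        (hξ _ (A.WW_mem_FF J n))
      ext γ
      simp only [Set.mem_inter_iff, Set.mem_empty_iff_false, iff_false, not_and]
      intro h3 h4
      have h5 := h3 l h2
      have h6 := h4 l h1
      push_cast at h5
      linarith
    · refine inner_disj (s := A.WW J' n') (t := A.BB J (n' + 1)) ?_ (hη _ (A.WW_mem_FF J' n'))
        (hξ _ (A.BB_mem_FF J (n' + 1) n))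
      ext γ
      simp only [Set.mem_inter_iff, Set.mem_empty_iff_false, iff_false, not_and]
      intro h3 h4
      have h5 := h4 l h2
      have h6 := h3 l h1
      push_cast at h5
      linarith
  refine Submodule.topologicalClosure_minimal _ ?_ (Submodule.isClosed_orthogonal _)
  rw [Submodule.span_le]
  intro ξ hξ
  rw [SetLike.mem_coe, Submodule.mem_orthogonal]
  intro η hη
  have h1 : XUa μ (A.reg J') ≤ (ℂ ∙ ξ)ᗮ := by
    refine Submodule.topologicalClosure_minimal _ ?_ (Submodule.isClosed_orthogonal _)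
    rw [Submodule.span_le]
    intro ζ hζ
    rw [SetLike.mem_coe, Submodule.mem_orthogonal_singleton_iff_inner_left]
    exact key ξ hξ ζ hζ
  have h2 := h1 hη
  rwa [Submodule.mem_orthogonal_singleton_iff_inner_left] at h2

/-- Different strata are orthogonal. -/
theorem orth_reg {J J' : Finset (Fin r)} (h : J ≠ J') {ξ η : UE μ (L2 G)} (hξ : ξ ∈ XUa μ (A.reg J))
    (hη : η ∈ XUa μ (A.reg J')) : (inner ℂ ξ η : ℂ) = 0 := by
  have h1 := (Submodule.mem_orthogonal _ _).1 (XUa_le_orth A h.symm hη) ξ hξ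
  exact h1

theorem XPpr_other {J J' : Finset (Fin r)} (h : J ≠ J') {ξ : UE μ (L2 G)} (hξ : ξ ∈ XUa μ (A.reg J)) :
    XPpr (A.reg J') ξ = 0 := by
  refine Subtype.ext ?_
  exact (Submodule.starProjection_apply_eq_zero_iff _).2 (XUa_le_orth A h hξ)

theorem XPpr_self {J : Finset (Fin r)} {ξ : UE μ (L2 G)} (hξ : ξ ∈ XUa μ (A.reg J)) :
    ((XPpr (A.reg J) ξ : XUa μ (A.reg J)) : UE μ (L2 G)) = ξ := Submodule.starProjection_eq_self_iff.2 hξ

/-- The cells: gaps in `J` at most `n`, the others larger than `n`. -/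
def Gp.cell (J : Finset (Fin r)) (n : ℕ) : Set G := {γ | (∀ i ∈ J, A.gap γ i ≤ n) ∧ ∀ i, i ∉ J → (n : ℝ) < A.gap γ i}

theorem sum_cell (n : ℕ) (ξ : UE μ (L2 G)) : ∑ J : Finset (Fin r), UE.map μ (ind ℂ (A.cell J n)) ξ = ξ := by
  classical
  rw [← map_sum']
  have h : ∑ J : Finset (Fin r), ind ℂ (A.cell J n) = ContinuousLinearMap.id ℂ (L2 G) := by
    ext1 x
    apply lv_ext
    intro γ
    rw [ContinuousLinearMap.sum_apply, ContinuousLinearMap.id_apply]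
    have h1 : (∑ J : Finset (Fin r), (ind ℂ (A.cell J n)) x : L2 G) γ =
        ∑ J : Finset (Fin r), ((ind ℂ (A.cell J n)) x : L2 G) γ := by
      rw [lp.coeFn_sum, Finset.sum_apply]
    rw [h1, Finset.sum_eq_single (Finset.univ.filter fun i => A.gap γ i ≤ n)]
    · rw [ind_apply, if_pos]
      refine ⟨fun i hi => (Finset.mem_filter.1 hi).2, fun i hi => ?_⟩
      rw [Finset.mem_filter, not_and] at hi
      exact not_le.1 (hi (Finset.mem_univ _))
    · intro J _ hJ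
      rw [ind_apply, if_neg]
      rintro ⟨h2, h3⟩
      refine hJ (Finset.ext fun i => ?_)
      rw [Finset.mem_filter]
      refine ⟨fun hi => ⟨Finset.mem_univ _, h2 i hi⟩, fun hi => ?_⟩
      by_contra hcon
      exact absurd hi.2 (not_le.2 (h3 i hcon))
    · exact fun h => absurd (Finset.mem_univ _) h
  rw [h, UE.map_id]

/-- The mass between `n` and `n'` of a gap is small for large `n`. -/
theorem exists_tail (ξ : UE μ (L2 G)) {δ : ℝ} (hδ : 0 < δ) : ∃ n : ℕ, ∀ (l : Fin r) (m : ℕ), n ≤ m →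
    ‖UE.map μ (ind ℂ ({γ | A.gap γ l ≤ m} \ {γ | A.gap γ l ≤ n})) ξ‖ ^ 2 ≤ δ := by
  have h1 : ∀ l : Fin r, ∃ n : ℕ, ∀ m : ℕ, n ≤ m →
      ‖UE.map μ (ind ℂ {γ | A.gap γ l ≤ m}) ξ‖ ^ 2 - ‖UE.map μ (ind ℂ {γ | A.gap γ l ≤ n}) ξ‖ ^ 2 ≤ δ := by
    intro l
    have hmono : Monotone fun n : ℕ => ‖UE.map μ (ind ℂ {γ | A.gap γ l ≤ n}) ξ‖ ^ 2 := by
      intro n m hnm
      refine pow_le_pow_left₀ (norm_nonneg _) (sq_mono (fun γ hγ => ?_) ξ) 2
      exact le_trans (show A.gap γ l ≤ n from hγ) (by exact_mod_cast hnm)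
    have hbdd : BddAbove (Set.range fun n : ℕ => ‖UE.map μ (ind ℂ {γ | A.gap γ l ≤ n}) ξ‖ ^ 2) := ⟨‖ξ‖ ^ 2, by
      rintro _ ⟨n, rfl⟩
      exact pow_le_pow_left₀ (norm_nonneg _) (xnorm_ind_le _ _) 2⟩
    have hlim := tendsto_atTop_ciSup hmono hbdd
    obtain ⟨n, hn⟩ := Metric.tendsto_atTop.1 hlim (δ / 2) (by positivity)
    refine ⟨n, fun m hm => ?_⟩
    have a := hn n le_rfl
    have b := hn m hm
    rw [Real.dist_eq] at a b
    have a' := abs_lt.1 a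
    have b' := abs_lt.1 b
    linarith
  choose n hn using h1
  refine ⟨Finset.univ.sup n, fun l m hm => ?_⟩
  have hle : n l ≤ Finset.univ.sup n := Finset.le_sup (Finset.mem_univ l)
  have hsub : {γ | A.gap γ l ≤ (Finset.univ.sup n : ℕ)} ⊆ {γ | A.gap γ l ≤ m} := fun γ hγ =>
    le_trans (show A.gap γ l ≤ (Finset.univ.sup n : ℕ) from hγ) (by exact_mod_cast hm)
  rw [← C_sdiff hsub, dist_C hsub]
  have h2 := hn l m (hle.trans hm)
  have h3 : ‖UE.map μ (ind ℂ {γ | A.gap γ l ≤ n l}) ξ‖ ^ 2 ≤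
      ‖UE.map μ (ind ℂ {γ | A.gap γ l ≤ (Finset.univ.sup n : ℕ)}) ξ‖ ^ 2 := by
    refine pow_le_pow_left₀ (norm_nonneg _) (sq_mono (fun γ hγ => ?_) ξ) 2
    exact le_trans (show A.gap γ l ≤ n l from hγ) (by exact_mod_cast hle)
  linarith

/-- Approximation of the cells by vectors over the strata. -/
theorem cell_approx (ξ : UE μ (L2 G)) {n : ℕ} {δ : ℝ}
    (hn : ∀ (l : Fin r) (m : ℕ), n ≤ m →
      ‖UE.map μ (ind ℂ ({γ | A.gap γ l ≤ m} \ {γ | A.gap γ l ≤ n})) ξ‖ ^ 2 ≤ δ) (J : Finset (Fin r)) :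
    ∃ η ∈ XUa μ (A.reg J), ‖UE.map μ (ind ℂ (A.cell J n)) ξ - η‖ ^ 2 ≤ r * δ := by
  classical
  obtain ⟨η, hη, hlim⟩ := lim_vec (μ := μ) (A.reg J) n (A := fun m => A.WW J n ∩ A.BB J (m + (n + 1)))
    (fun m m' h => Set.inter_subset_inter_right _ (A.BB_anti J (by omega)))
    (fun s hs => by
      obtain ⟨m, hm⟩ := A.mem_FF.1 hs
      exact ⟨m, (Set.inter_subset_inter_right _ (A.BB_anti J (by omega))).trans hm⟩) ξ
  refine ⟨η, hη, ?_⟩
  have h1 : Tendsto (fun m => ‖UE.map μ (ind ℂ (A.cell J n)) ξ -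
      UE.map μ (ind ℂ (A.WW J n ∩ A.BB J (m + (n + 1)))) ξ‖ ^ 2) atTop
      (𝓝 (‖UE.map μ (ind ℂ (A.cell J n)) ξ - η‖ ^ 2)) := ((tendsto_const_nhds.sub hlim).norm).pow 2
  refine le_of_tendsto h1 (Eventually.of_forall fun m => ?_)
  have hsub : A.WW J n ∩ A.BB J (m + (n + 1)) ⊆ A.cell J n := by
    rintro γ ⟨h2, h3⟩
    refine ⟨h2, fun i hi => ?_⟩
    have h4 := h3 i hi
    push_cast at h4
    have h5 : (0 : ℝ) ≤ m := Nat.cast_nonneg m
    linarith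
  rw [C_sdiff hsub]
  have hsub2 : A.cell J n \ (A.WW J n ∩ A.BB J (m + (n + 1))) ⊆
      ⋃ l ∈ (Finset.univ : Finset (Fin r)), ({γ | A.gap γ l ≤ (m + (n + 1) : ℕ)} \ {γ | A.gap γ l ≤ n}) := by
    rintro γ ⟨⟨h2, h3⟩, h4⟩
    have h5 : ∃ i, i ∉ J ∧ A.gap γ i < (m + (n + 1) : ℕ) := by
      by_contra hcon
      push Not at hcon
      exact h4 ⟨h2, fun i hi => hcon i hi⟩
    obtain ⟨i, hi, hlt⟩ := h5
    exact Set.mem_iUnion₂.2 ⟨i, Finset.mem_univ _, hlt.le, not_le.2 (h3 i hi)⟩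
  refine (pow_le_pow_left₀ (norm_nonneg _) (sq_mono hsub2 ξ) 2).trans ((sq_biUnion _ _ ξ).trans ?_)
  calc ∑ l : Fin r, ‖UE.map μ (ind ℂ ({γ | A.gap γ l ≤ (m + (n + 1) : ℕ)} \ {γ | A.gap γ l ≤ n})) ξ‖ ^ 2
      ≤ ∑ _l : Fin r, δ := Finset.sum_le_sum fun l _ => hn l _ (by omega)
    _ = r * δ := by rw [Finset.sum_const, Finset.card_univ, Fintype.card_fin, nsmul_eq_mul]

/-- Every vector is the sum of its components over the strata. -/
theorem sum_proj (ξ : UE μ (L2 G)) :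
    ∑ J : Finset (Fin r), ((XPpr (A.reg J) ξ : XUa μ (A.reg J)) : UE μ (L2 G)) = ξ := by
  classical
  let S : UE μ (L2 G) →L[ℂ] UE μ (L2 G) :=
    ContinuousLinearMap.id ℂ _ - ∑ J : Finset (Fin r), (XUa μ (A.reg J)).starProjection
  have hS : ∀ ζ, S ζ = ζ - ∑ J : Finset (Fin r), ((XPpr (A.reg J) ζ : XUa μ (A.reg J)) : UE μ (L2 G)) := by
    intro ζ
    simp only [S]
    rw [_root_.sub_apply, ContinuousLinearMap.sum_apply, ContinuousLinearMap.id_apply]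
    rfl
  have hS0 : ∀ J, ∀ η ∈ XUa μ (A.reg J), S η = 0 := by
    intro J η hη
    rw [hS, Finset.sum_eq_single J, XPpr_self A hη, sub_self]
    · intro J' _ hJ'
      rw [XPpr_other A hJ'.symm hη, Submodule.coe_zero]
    · exact fun h => absurd (Finset.mem_univ _) h
  have hzero : S ξ = 0 := by
    by_contra hne
    have hpos : 0 < ‖S ξ‖ := norm_pos_iff.2 hne
    set K : ℝ := ((Finset.univ : Finset (Finset (Fin r))).card : ℝ) with hK
    have hK0 : 0 ≤ K := Nat.cast_nonneg _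
    -- choose `e` with `‖S‖ * K * e < ‖S ξ‖`
    obtain ⟨e, he, hlt⟩ : ∃ e : ℝ, 0 < e ∧ ‖S‖ * (K * e) < ‖S ξ‖ := by
      refine ⟨‖S ξ‖ / (2 * (‖S‖ * K + 1)), by positivity, ?_⟩
      have h1 : 0 ≤ ‖S‖ * K := mul_nonneg (norm_nonneg _) hK0
      rw [← mul_assoc, ← mul_div_assoc, div_lt_iff₀ (by positivity)]
      nlinarith
    obtain ⟨n, hn⟩ := exists_tail (μ := μ) A ξ (δ := e ^ 2 / (r + 1)) (by positivity)
    have h2 := cell_approx (μ := μ) A ξ hn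
    choose η hη hd using h2
    have hd' : ∀ J, ‖UE.map μ (ind ℂ (A.cell J n)) ξ - η J‖ ≤ e := by
      intro J
      refine abs_le_of_sq_le_sq' ?_ he.le |>.2
      refine (hd J).trans ?_
      have h3 : (0 : ℝ) < (r : ℝ) + 1 := by positivity
      rw [mul_div_assoc', div_le_iff₀ h3]
      nlinarith [sq_nonneg e]
    have h3 : S ξ = ∑ J, S (UE.map μ (ind ℂ (A.cell J n)) ξ - η J) := by
      rw [← map_sum, Finset.sum_sub_distrib, sum_cell A n ξ, map_sub, map_sum]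
      rw [Finset.sum_eq_zero (fun J _ => hS0 J _ (hη J)), sub_zero]
    have h4 : ‖S ξ‖ ≤ ‖S‖ * (K * e) := by
      rw [h3]
      refine (norm_sum_le _ _).trans ?_
      calc ∑ J, ‖S (UE.map μ (ind ℂ (A.cell J n)) ξ - η J)‖ ≤ ∑ _J : Finset (Fin r), ‖S‖ * e :=
            Finset.sum_le_sum fun J _ => (S.le_opNorm _).trans (mul_le_mul_of_nonneg_left (hd' J) (norm_nonneg _))
        _ = ‖S‖ * (K * e) := by
            rw [Finset.sum_const, nsmul_eq_mul]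
            ring
    linarith
  rw [hS, sub_eq_zero] at hzero
  exact hzero.symm

/-- The squares of the norms of the components. -/
theorem sum_sq (ξ : UE μ (L2 G)) : ∑ J : Finset (Fin r), ‖XPpr (A.reg J) ξ‖ ^ 2 = ‖ξ‖ ^ 2 := by
  have h1 : ((‖ξ‖ ^ 2 : ℝ) : ℂ) = ∑ J : Finset (Fin r), ((‖XPpr (A.reg J) ξ‖ ^ 2 : ℝ) : ℂ) := by
    have h2 : (inner ℂ (∑ J : Finset (Fin r), ((XPpr (A.reg J) ξ : XUa μ (A.reg J)) : UE μ (L2 G))) ξ : ℂ) =
        ∑ J : Finset (Fin r), ((‖XPpr (A.reg J) ξ‖ ^ 2 : ℝ) : ℂ) := by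
      rw [sum_inner]
      refine Finset.sum_congr rfl fun J _ => ?_
      rw [inner_XPpr, inner_self_eq_norm_sq_to_K]
      norm_cast
    rw [sum_proj A ξ, inner_self_eq_norm_sq_to_K] at h2
    rw [← h2]
    norm_cast
  have h3 : ((‖ξ‖ ^ 2 : ℝ) : ℂ) = ((∑ J : Finset (Fin r), ‖XPpr (A.reg J) ξ‖ ^ 2 : ℝ) : ℂ) := by
    rw [h1]
    push_cast
    rfl
  exact (Complex.ofReal_injective h3).symm

end Pool.Agent.Helper43.FQ
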